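import Pool.Agent.Run7.h693.TP.Defs

set_option autoImplicit false

/-!
# Transversal pencils of subspaces: measure-theoretic lemmas

`P N` is `ℝ^N` with the maximum norm.
-/

open MeasureTheory Set Metric ENNReal NNReal

namespace Run7.h693.TP




instance instHaarProd (V W : Type) [NormedAddCommGroup V] [NormedSpace ℝ V]
    [FiniteDimensional ℝ V] [MeasureSpace V] [BorelSpace V] [(volume : Measure V).IsAddHaarMeasure]
    [NormedAddCommGroup W] [NormedSpace ℝ W] [FiniteDimensional ℝ W]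
    [MeasureSpace W] [BorelSpace W] [(volume : Measure W).IsAddHaarMeasure] :
    (volume : Measure (V × W)).IsAddHaarMeasure := by
  rw [Measure.volume_eq_prod]
  infer_instance

/-! ### Lipschitz images -/

/-- Lipschitz maps between spaces of the same dimension -/
theorem lip_vol (V W : Type) [NormedAddCommGroup V] [NormedSpace ℝ V] [FiniteDimensional ℝ V]
    [MeasureSpace V] [BorelSpace V] [(volume : Measure V).IsAddHaarMeasure]
    [NormedAddCommGroup W] [NormedSpace ℝ W] [FiniteDimensional ℝ W]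
    [MeasureSpace W] [BorelSpace W] [(volume : Measure W).IsAddHaarMeasure]
    (h : Module.finrank ℝ V = Module.finrank ℝ W) :
    ∃ C : ℝ, 0 < C ∧ ∀ (K : ℝ≥0) (f : V → W) (S : Set V), LipschitzOnWith K f S →
      volume (f '' S) ≤ ENNReal.ofReal (C * K ^ (Module.finrank ℝ V)) * volume S := by
  have h1 := MeasureTheory.Measure.isAddLeftInvariant_eq_smul
    (volume : Measure W) (μH[(Module.finrank ℝ W : ℝ)] : Measure W)
  have h2 := MeasureTheory.Measure.isAddLeftInvariant_eq_smul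
    (μH[(Module.finrank ℝ V : ℝ)] : Measure V) (volume : Measure V)
  have p1 := MeasureTheory.Measure.addHaarScalarFactor_pos_of_isAddHaarMeasure
    (volume : Measure W) (μH[(Module.finrank ℝ W : ℝ)] : Measure W)
  have p2 := MeasureTheory.Measure.addHaarScalarFactor_pos_of_isAddHaarMeasure
    (μH[(Module.finrank ℝ V : ℝ)] : Measure V) (volume : Measure V)
  set k1 := Measure.addHaarScalarFactor (volume : Measure W)
    (μH[(Module.finrank ℝ W : ℝ)] : Measure W)
  set k2 := Measure.addHaarScalarFactor (μH[(Module.finrank ℝ V : ℝ)] : Measure V)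
    (volume : Measure V)
  set c1 : ℝ≥0∞ := (k1 : ℝ≥0∞) with hc1
  set c2 : ℝ≥0∞ := (k2 : ℝ≥0∞) with hc2
  have h10 : c1 ≠ 0 := by rw [hc1]; exact ENNReal.coe_ne_zero.2 p1.ne'
  have h20 : c2 ≠ 0 := by rw [hc2]; exact ENNReal.coe_ne_zero.2 p2.ne'
  have h1t : c1 ≠ ∞ := ENNReal.coe_ne_top
  have h2t : c2 ≠ ∞ := ENNReal.coe_ne_top
  refine ⟨(c1 * c2).toReal, ENNReal.toReal_pos (mul_ne_zero h10 h20) (ENNReal.mul_ne_top h1t h2t),
    ?_⟩
  intro K f S hf
  have h3 : μH[(Module.finrank ℝ W : ℝ)] (f '' S) ≤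
      (K : ℝ≥0∞) ^ (Module.finrank ℝ V : ℝ) * μH[(Module.finrank ℝ V : ℝ)] S := by
    rw [← h]
    exact hf.hausdorffMeasure_image_le (by positivity)
  have h4 : volume (f '' S) = c1 * μH[(Module.finrank ℝ W : ℝ)] (f '' S) := by
    conv_lhs => rw [h1]
    rfl
  have h5 : μH[(Module.finrank ℝ V : ℝ)] S = c2 * volume S := by
    conv_lhs => rw [h2]
    rfl
  rw [h4]
  calc c1 * μH[(Module.finrank ℝ W : ℝ)] (f '' S)
      ≤ c1 * ((K : ℝ≥0∞) ^ (Module.finrank ℝ V : ℝ) * μH[(Module.finrank ℝ V : ℝ)] S) := by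
        gcongr
    _ = c1 * c2 * (K : ℝ≥0∞) ^ (Module.finrank ℝ V) * volume S := by
        rw [h5, ENNReal.rpow_natCast]; ring
    _ = _ := by
        rw [ENNReal.ofReal_mul (by positivity), ENNReal.ofReal_toReal (ENNReal.mul_ne_top h1t h2t),
          ENNReal.ofReal_pow (by positivity), ENNReal.ofReal_coe_nnreal]

/-! ### The Cauchy-Schwarz argument -/

/-- Cordoba's argument. -/
theorem cs {I X : Type} [MeasurableSpace I] [MeasurableSpace X] (ν : Measure I) (μ : Measure X)
    [SigmaFinite ν] [SigmaFinite μ] (G : Set (I × X)) (hG : MeasurableSet G) (F : Set X)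
    (hF : MeasurableSet F) :
    (∫⁻ i, μ (F ∩ {x | (i, x) ∈ G}) ∂ν) ^ 2 ≤
      μ F * ∫⁻ i, ∫⁻ j, μ {x | (i, x) ∈ G ∧ (j, x) ∈ G} ∂ν ∂ν := by
  set g : I → X → ℝ≥0∞ := fun i x => G.indicator (fun _ => (1 : ℝ≥0∞)) (i, x) with hg
  have hgm : Measurable (Function.uncurry g) := by
    have : Function.uncurry g = G.indicator (fun _ => (1 : ℝ≥0∞)) := by
      ext ⟨i, x⟩; rfl
    rw [this]
    exact measurable_const.indicator hG
  set m : X → ℝ≥0∞ := fun x => ∫⁻ i, g i x ∂ν with hm
  have hmm : Measurable m := hgm.lintegral_prod_left'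
  have hsec : ∀ i, MeasurableSet {x | (i, x) ∈ G} := fun i => measurable_prodMk_left hG
  have h1 : ∫⁻ i, μ (F ∩ {x | (i, x) ∈ G}) ∂ν = ∫⁻ x, F.indicator (fun _ => 1) x * m x ∂μ := by
    have e1 : ∀ i, μ (F ∩ {x | (i, x) ∈ G}) = ∫⁻ x, F.indicator (fun _ => 1) x * g i x ∂μ := by
      intro i
      rw [← lintegral_indicator_one (hF.inter (hsec i))]
      congr 1
      ext x
      by_cases hx : x ∈ F <;> by_cases hy : (i, x) ∈ G <;>
        simp [g, indicator, hx, hy]
    simp_rw [e1]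
    rw [lintegral_lintegral_swap]
    · congr 1
      ext x
      rw [hm, lintegral_const_mul]
      exact hgm.comp (measurable_prodMk_right)
    · apply Measurable.aemeasurable
      apply Measurable.mul
      · exact (measurable_const.indicator hF).comp measurable_snd
      · exact hgm
  have h2 : ∫⁻ x, m x ^ 2 ∂μ = ∫⁻ i, ∫⁻ j, μ {x | (i, x) ∈ G ∧ (j, x) ∈ G} ∂ν ∂ν := by
    have e1 : ∀ i j, μ {x | (i, x) ∈ G ∧ (j, x) ∈ G} = ∫⁻ x, g i x * g j x ∂μ := by
      intro i j
      have : {x | (i, x) ∈ G ∧ (j, x) ∈ G} = {x | (i, x) ∈ G} ∩ {x | (j, x) ∈ G} := rfl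
      rw [this, ← lintegral_indicator_one ((hsec i).inter (hsec j))]
      congr 1
      ext x
      by_cases hx : (i, x) ∈ G <;> by_cases hy : (j, x) ∈ G <;>
        simp [g, indicator, hx, hy]
    simp_rw [e1]
    have hg1 : ∀ i, Measurable (fun x => g i x) := fun i => hgm.comp measurable_prodMk_left
    have e2 : ∀ i, ∫⁻ j, ∫⁻ x, g i x * g j x ∂μ ∂ν = ∫⁻ x, g i x * m x ∂μ := by
      intro i
      rw [lintegral_lintegral_swap]
      · congr 1
        ext x
        rw [hm, lintegral_const_mul]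
        exact hgm.comp (measurable_prodMk_right)
      · apply Measurable.aemeasurable
        apply Measurable.mul
        · exact (hg1 i).comp measurable_snd
        · exact hgm
    simp_rw [e2]
    rw [lintegral_lintegral_swap]
    · congr 1
      ext x
      rw [lintegral_mul_const _ (show Measurable fun i => g i x from
        hgm.comp measurable_prodMk_right), sq]
    · apply Measurable.aemeasurable
      exact hgm.mul (hmm.comp measurable_snd)
  rw [h1, ← h2]
  have h3 := ENNReal.lintegral_mul_le_Lp_mul_Lq μ (p := 2) (q := 2) (by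
    constructor <;> norm_num) ((measurable_const.indicator hF).aemeasurable (f := F.indicator (fun _ => (1 : ℝ≥0∞))))
    hmm.aemeasurable
  have h4 : ∫⁻ x, (F.indicator (fun _ => (1 : ℝ≥0∞)) x) ^ (2 : ℝ) ∂μ = μ F := by
    rw [← lintegral_indicator_one hF]
    congr 1
    ext x
    by_cases hx : x ∈ F <;> simp [hx]
  simp only [Pi.mul_apply] at h3
  rw [h4] at h3
  calc (∫⁻ x, F.indicator (fun _ => 1) x * m x ∂μ) ^ 2
      ≤ (μ F ^ (1 / 2 : ℝ) * (∫⁻ x, m x ^ (2 : ℝ) ∂μ) ^ (1 / 2 : ℝ)) ^ 2 := by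
        gcongr
    _ = μ F * ∫⁻ x, m x ^ 2 ∂μ := by
        rw [mul_pow, ← ENNReal.rpow_natCast, ← ENNReal.rpow_natCast, ← ENNReal.rpow_mul,
          ← ENNReal.rpow_mul]
        norm_num

end Run7.h693.TP
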