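import Pool.Agent.Run7.h693.TP.Ex

set_option autoImplicit false

/-!
# Transversal pencils: Kakeya sets in `ℝ^4` adapted to a complex structure
-/

open MeasureTheory Set Metric ENNReal NNReal

namespace Run7.h693.TP

/-! ### Complex structures on `ℝ^4` -/

/-- the standard complex structure of `ℝ^4 = ℂ²`, where `p ∈ ℝ^4` is `(p₁ + i p₂, p₀ + i p₃)` -/
noncomputable def J0 : E 4 →ₗ[ℝ] E 4 where
  toFun p := WithLp.toLp 2 ![-p 3, -p 2, p 1, p 0]
  map_add' p q := by
    ext i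
    fin_cases i <;> simp <;> ring
  map_smul' r p := by
    ext i
    fin_cases i <;> simp

theorem J0_apply (p : E 4) : J0 p = WithLp.toLp 2 ![-p 3, -p 2, p 1, p 0] := rfl

/-- real linear combinations of `e, J e, f, J f` -/
noncomputable def comb (J : E 4 →ₗ[ℝ] E 4) (e f : E 4) : E 4 →ₗ[ℝ] E 4 where
  toFun p := p 0 • e + p 3 • J e + (p 1 • f + p 2 • J f)
  map_add' p q := by
    simp only [PiLp.add_apply, add_smul]
    abel
  map_smul' r p := by
    simp only [PiLp.smul_apply, smul_eq_mul, mul_smul, smul_add, RingHom.id_apply]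

theorem comb_apply (J : E 4 →ₗ[ℝ] E 4) (e f p : E 4) :
    comb J e f p = p 0 • e + p 3 • J e + (p 1 • f + p 2 • J f) := rfl

/-- Every complex structure on `ℝ^4` is isomorphic to the standard one. -/
theorem exists_basis (J : E 4 →ₗ[ℝ] E 4) (hJ : ∀ x, J (J x) = -x) :
    ∃ Φ : E 4 ≃L[ℝ] E 4, ∀ p, Φ (J0 p) = J (Φ p) := by
  obtain ⟨e, he⟩ := exists_ne (0 : E 4)
  set V : Submodule ℝ (E 4) := Submodule.span ℝ {e, J e} with hV
  have hVJ : ∀ x ∈ V, J x ∈ V := by
    intro x hx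
    obtain ⟨r, s, rfl⟩ := Submodule.mem_span_pair.1 hx
    refine Submodule.mem_span_pair.2 ⟨-s, r, ?_⟩
    rw [map_add, map_smul, map_smul, hJ, smul_neg, neg_smul, add_comm]
  have hVt : V ≠ ⊤ := by
    intro h
    have h1 : Module.finrank ℝ V ≤ 2 := by
      have h2 := finrank_span_le_card (R := ℝ) ({e, J e} : Set (E 4))
      have h3 : ({e, J e} : Set (E 4)).toFinset.card ≤ 2 := by
        have : ({e, J e} : Set (E 4)).toFinset = ({e, J e} : Finset (E 4)) := by
          ext x; simp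
        rw [this]
        exact Finset.card_le_two
      exact h2.trans h3
    rw [h, finrank_top] at h1
    simp at h1
  obtain ⟨f, hf⟩ : ∃ f, f ∉ V := by
    by_contra hcon
    push Not at hcon
    exact hVt (Submodule.eq_top_iff'.2 hcon)
  -- a complex multiple of a vector outside `V` in `V` vanishes
  have key : ∀ (W : Submodule ℝ (E 4)), (∀ x ∈ W, J x ∈ W) → ∀ g, g ∉ W → ∀ r s : ℝ,
      r • g + s • J g ∈ W → r = 0 ∧ s = 0 := by
    intro W hW g hg r s h
    have h1 : r • (r • g + s • J g) - s • J (r • g + s • J g) ∈ W :=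
      W.sub_mem (W.smul_mem _ h) (W.smul_mem _ (hW _ h))
    have h2 : r • (r • g + s • J g) - s • J (r • g + s • J g) = (r ^ 2 + s ^ 2) • g := by
      rw [map_add, map_smul, map_smul, hJ]
      module
    rw [h2] at h1
    by_contra hcon
    have h3 : r ^ 2 + s ^ 2 ≠ 0 := by
      intro h4
      apply hcon
      constructor <;> nlinarith [sq_nonneg r, sq_nonneg s]
    apply hg
    have := W.smul_mem (r ^ 2 + s ^ 2)⁻¹ h1
    rwa [smul_smul, inv_mul_cancel₀ h3, one_smul] at this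
  have hinj : Function.Injective (comb J e f) := by
    rw [← LinearMap.ker_eq_bot, LinearMap.ker_eq_bot']
    intro p hp
    rw [comb_apply] at hp
    have h1 : p 1 • f + p 2 • J f ∈ V := by
      have h2 : p 1 • f + p 2 • J f = -(p 0 • e + p 3 • J e) := by
        rw [eq_neg_iff_add_eq_zero, add_comm]
        exact hp
      rw [h2]
      exact V.neg_mem (Submodule.mem_span_pair.2 ⟨p 0, p 3, rfl⟩)
    obtain ⟨h3, h4⟩ := key V hVJ f hf _ _ h1
    rw [h3, h4, zero_smul, zero_smul, add_zero, add_zero] at hp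
    obtain ⟨h5, h6⟩ := key ⊥ (by
      intro x hx
      rw [Submodule.mem_bot] at hx ⊢
      rw [hx, map_zero]) e (by simpa using he) (p 0) (p 3) (by
      rw [Submodule.mem_bot]; exact hp)
    ext i
    fin_cases i
    · exact h5
    · exact h3
    · exact h4
    · exact h6
  refine ⟨(LinearEquiv.ofInjectiveEndo (comb J e f) hinj).toContinuousLinearEquiv, fun p => ?_⟩
  change comb J e f (J0 p) = J (comb J e f p)
  rw [comb_apply, comb_apply, J0_apply, map_add, map_add, map_add, map_smul, map_smul, map_smul,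
    map_smul, hJ, hJ]
  simp
  module

/-! ### The lines -/

/-- `z₁ - b z₂` for the point `p = (z₁, z₂) ∈ ℂ²` -/
noncomputable def lam (b : P 2) (p : E 4) : P 2 := ![p 1, p 2] - cm b (![p 3], p 0)

theorem lam_iot (b : P 2) (x : P 3) (t : ℝ) : lam b (iot 3 (x, t)) =
    ![x 0, x 1] - cm b (![x 2], t) := rfl

theorem lam_add (b : P 2) (p q : E 4) : lam b (p + q) = lam b p + lam b q := by
  rw [lam, lam, lam, cm_apply, cm_apply, cm_apply]
  ext i
  fin_cases i <;> simp <;> ring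

theorem lam_smul (b : P 2) (r : ℝ) (p : E 4) : lam b (r • p) = r • lam b p := by
  rw [lam, lam, cm_apply, cm_apply]
  ext i
  fin_cases i <;> simp <;> ring

theorem lam_sub (b : P 2) (p q : E 4) : lam b (p - q) = lam b p - lam b q := by
  rw [sub_eq_add_neg, lam_add, ← neg_one_smul ℝ q, lam_smul, neg_one_smul, sub_eq_add_neg]

theorem lam_J0 (b : P 2) (p : E 4) (h : lam b p = 0) : lam b (J0 p) = 0 := by
  rw [lam, cm_apply] at h
  have h0 := congrFun h 0
  have h1 := congrFun h 1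
  simp at h0 h1
  rw [lam, cm_apply, J0_apply]
  ext i
  fin_cases i
  · simp; linarith
  · simp; linarith

/-- the slope number `w` in the complex line with complex slope `b` -/
theorem lam_slope (b : P 2) (w : P 1) : lam b (iot 3 (U21 (cm b (w, 1), w), 1)) = 0 := by
  rw [lam_iot, U21_apply, cm_apply, cm_apply]
  ext i
  fin_cases i <;> simp

theorem iot_three (x : P 3) (t : ℝ) : iot 3 (x, t) = WithLp.toLp 2 ![t, x 0, x 1, x 2] := by
  rw [iot_apply]
  ext i
  fin_cases i <;> rfl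

/-- all slopes in a complex line are in the complex span of one of them -/
theorem slope_span (b : P 2) (w : P 1) :
    iot 3 (U21 (cm b (w, 1), w), 1) = iot 3 (U21 (cm b (0, 1), 0), 1) +
      w 0 • J0 (iot 3 (U21 (cm b (0, 1), 0), 1)) := by
  rw [J0_apply, iot_three, iot_three, U21_apply, cm_apply, U21_apply, cm_apply]
  ext i
  fin_cases i
  · simp
  · simp
    ring
  · simp
    ring
  · simp

/-! ### Kakeya sets -/

section kakeya

variable (Φ : E 4 ≃L[ℝ] E 4) (a : E 4 → E 4)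

/-- the vector `Φ (1, v)` -/
noncomputable def dv (v : P 3) : E 4 := Φ (iot 3 (v, 1))

/-- the direction of slope `v` -/
noncomputable def om (v : P 3) : E 4 := ‖dv Φ v‖⁻¹ • dv Φ v

/-- the starting point of the segment of slope `v`, in the coordinates given by `Φ` -/
noncomputable def qq (v : P 3) : P 3 × ℝ := (iot 3).symm (Φ.symm (a (om Φ v)))

/-- the position of the segment of slope `v` -/
noncomputable def aa (v : P 3) : P 3 := (qq Φ a v).1 - (qq Φ a v).2 • v

theorem dv_ne (v : P 3) : dv Φ v ≠ 0 := by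
  intro h
  have h1 : iot 3 (v, 1) = 0 := by
    apply Φ.injective
    rw [map_zero]
    exact h
  have h2 : (v, (1 : ℝ)) = 0 := by
    apply (iot 3).injective
    rw [map_zero]
    exact h1
  exact one_ne_zero (congrArg Prod.snd h2)

theorem om_norm (v : P 3) : ‖om Φ v‖ = 1 := by
  have h1 := norm_pos_iff.2 (dv_ne Φ v)
  rw [om, norm_smul, norm_inv, norm_norm, inv_mul_cancel₀ h1.ne']

theorem om_cont : Continuous (om Φ) := by
  have h1 : Continuous (dv Φ) := by
    unfold dv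
    fun_prop
  have h2 : Continuous fun v => ‖dv Φ v‖⁻¹ :=
    h1.norm.inv₀ fun v => (norm_pos_iff.2 (dv_ne Φ v)).ne'
  exact h2.smul h1

theorem aa_meas (ha : Measurable a) : Measurable (aa Φ a) := by
  have h1 : Measurable (qq Φ a) := by
    have h2 : Continuous fun x : E 4 => (iot 3).symm (Φ.symm x) := by fun_prop
    exact h2.measurable.comp (ha.comp (om_cont Φ).measurable)
  have h3 : Measurable fun v => (qq Φ a v).2 • v := h1.snd.smul measurable_id
  exact h1.fst.sub h3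

theorem pt_aa (v : P 3) (t : ℝ) : Φ (pt (aa Φ a v) v t) =
    a (om Φ v) + ((t - (qq Φ a v).2) * ‖dv Φ v‖) • om Φ v := by
  have h1 : pt (aa Φ a v) v t = iot 3 (qq Φ a v) + (t - (qq Φ a v).2) • iot 3 (v, 1) := by
    rw [← map_smul, ← map_add]
    change iot 3 (aa Φ a v + t • v, t) = _
    congr 1
    apply Prod.ext
    · simp only [aa, Prod.fst_add, Prod.smul_fst]
      module
    · simp
  have h2 : Φ (iot 3 (qq Φ a v)) = a (om Φ v) := by
    rw [qq, ContinuousLinearEquiv.apply_symm_apply, ContinuousLinearEquiv.apply_symm_apply]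
  have h3 := norm_pos_iff.2 (dv_ne Φ v)
  rw [h1, map_add, h2, map_smul, mul_smul, om, smul_inv_smul₀ h3.ne']
  rfl

end kakeya

/-- the complex line `{r ω + s J ω : r, s ∈ ℝ}` -/
noncomputable def cline (J : E 4 →ₗ[ℝ] E 4) (ω : E 4) : Submodule ℝ (E 4) :=
  Submodule.span ℝ {ω, J ω}

/-- `K` contains the unit segment `{a ω + s ω : 0 ≤ s ≤ 1}` for every unit vector `ω` of `ℝ^4`. -/
def Segments (a : E 4 → E 4) (K : Set (E 4)) : Prop :=
  ∀ ω : E 4, ‖ω‖ = 1 → ∀ s ∈ Icc (0 : ℝ) 1, a ω + s • ω ∈ K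

/-- For every unit vector `ω` the segments starting in the points `a ω'` with directions `ω'` in
the complex line of `ω` are contained in at most `M` translates of this complex line. -/
def Few (J : E 4 →ₗ[ℝ] E 4) (M : ℕ) (a : E 4 → E 4) : Prop :=
  ∀ ω : E 4, ‖ω‖ = 1 → ∃ F : Finset (E 4), F.card ≤ M ∧ ∀ ω' : E 4, ‖ω'‖ = 1 →
    ω' ∈ cline J ω → ∃ c ∈ F, a ω' - c ∈ cline J ω

/-- `K` contains a unit segment `{a ω + s ω : 0 ≤ s ≤ 1}` for every unit vector `ω` of `ℝ^4`, `a` is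
Borel measurable, and for every unit vector `ω` the segments with directions in the `J`-complex
line `span {ω, J ω}` are contained in at most `M` translates of this complex line. -/
structure ComplexKakeya (J : E 4 →ₗ[ℝ] E 4) (M : ℕ) (a : E 4 → E 4) (K : Set (E 4)) : Prop where
  meas : Measurable a
  seg : Segments a K
  few : Few J M a

theorem ck_tower {J : E 4 →ₗ[ℝ] E 4} {Φ : E 4 ≃L[ℝ] E 4} (hΦ : ∀ p, Φ (J0 p) = J (Φ p)) {M : ℕ}
    {a : E 4 → E 4} {K : Set (E 4)} (h : ComplexKakeya J M a K) :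
    Tower ((M : ℝ) + 2) 3 (closedBall 0 1) (aa Φ a) := by
  have hM0 : (0 : ℝ) ≤ M := Nat.cast_nonneg M
  set vb : P 2 → P 3 := fun b => U21 (cm b (0, 1), 0) with hvb
  set ob : P 2 → E 4 := fun b => om Φ (vb b) with hob
  have hdv : ∀ v, dv Φ v = ‖dv Φ v‖ • om Φ v := by
    intro v
    have h3 := norm_pos_iff.2 (dv_ne Φ v)
    rw [om, smul_inv_smul₀ h3.ne']
  have hsp : ∀ b, ∀ x ∈ cline J (ob b), lam b (Φ.symm x) = 0 := by
    intro b x hx
    obtain ⟨r, s, rfl⟩ := Submodule.mem_span_pair.1 hx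
    have h1 : Φ.symm (ob b) = ‖dv Φ (vb b)‖⁻¹ • iot 3 (vb b, 1) := by
      rw [hob]
      simp only [om, dv, map_smul, ContinuousLinearEquiv.symm_apply_apply]
    have h2 : lam b (Φ.symm (ob b)) = 0 := by
      rw [h1, lam_smul, lam_slope, smul_zero]
    have h3 : Φ.symm (J (ob b)) = J0 (Φ.symm (ob b)) := by
      rw [ContinuousLinearEquiv.symm_apply_eq, hΦ, ContinuousLinearEquiv.apply_symm_apply]
    rw [map_add, map_smul, map_smul, h3, lam_add, lam_smul, lam_smul, h2, lam_J0 b _ h2]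
    simp
  have hmem : ∀ b w, om Φ (U21 (cm b (w, 1), w)) ∈ cline J (ob b) := by
    intro b w
    have h1 : dv Φ (U21 (cm b (w, 1), w)) = dv Φ (vb b) + w 0 • J (dv Φ (vb b)) := by
      rw [dv, slope_span, map_add, map_smul, hΦ]
      rfl
    rw [om, h1, hdv (vb b), map_smul]
    apply Submodule.smul_mem
    apply Submodule.add_mem
    · exact Submodule.smul_mem _ _ (Submodule.subset_span (by simp [hob]))
    · exact Submodule.smul_mem _ _ (Submodule.smul_mem _ _ (Submodule.subset_span (by simp [hob])))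
  choose F hF1 hF2 using fun b => h.few (ob b) (om_norm Φ _)
  classical
  refine complex_tower (by linarith) (by linarith) _ subset_rfl _ (aa_meas Φ a h.meas)
    (fun b => (F b).image fun c => lam b (Φ.symm c))
    (fun b => Finset.card_image_le.trans (hF1 b)) ?_
  intro b w _
  set v : P 3 := U21 (cm b (w, 1), w) with hv
  obtain ⟨c, hc, h1⟩ := hF2 b (om Φ v) (om_norm Φ _) (hmem b w)
  refine ⟨lam b (Φ.symm c), Finset.mem_image_of_mem _ hc, ?_⟩
  have h2 : lam b (Φ.symm (a (om Φ v))) = lam b (Φ.symm c) := by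
    have h3 := hsp b _ h1
    rw [map_sub, lam_sub, sub_eq_zero] at h3
    exact h3
  have h4 : iot 3 (aa Φ a v, 0) = Φ.symm (a (om Φ v)) - (qq Φ a v).2 • iot 3 (v, 1) := by
    have h5 : Φ.symm (a (om Φ v)) = iot 3 (qq Φ a v) := by
      rw [qq, ContinuousLinearEquiv.apply_symm_apply]
    rw [h5, ← map_smul, ← map_sub]
    congr 1
    apply Prod.ext
    · simp only [aa, Prod.fst_sub, Prod.smul_fst]
    · simp
  have h6 : lam b (iot 3 (aa Φ a v, 0)) = lam b (Φ.symm c) := by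
    rw [h4, lam_sub, lam_smul, hv, lam_slope, ← hv, smul_zero, sub_zero, h2]
  rw [lam_iot] at h6
  rw [U21_apply, ← h6, cm_apply]
  ext i
  fin_cases i <;> simp

theorem ck_len {Φ : E 4 ≃L[ℝ] E 4} {a : E 4 → E 4} {K : Set (E 4)}
    (h : ∀ ω : E 4, ‖ω‖ = 1 → ∀ s ∈ Icc (0 : ℝ) 1, a ω + s • ω ∈ K) {L : ℝ} {v : P 3}
    (hL : ‖dv Φ v‖ ≤ L) :
    ENNReal.ofReal (1 / L) ≤ volume {t : ℝ | pt (aa Φ a v) v t ∈ Φ ⁻¹' K} := by
  have h3 := norm_pos_iff.2 (dv_ne Φ v)
  have h1 : Icc (qq Φ a v).2 ((qq Φ a v).2 + 1 / L) ⊆ {t : ℝ | pt (aa Φ a v) v t ∈ Φ ⁻¹' K} := by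
    intro t ht
    rw [mem_ofPred_eq, mem_preimage, pt_aa]
    apply h _ (om_norm Φ v)
    have h4 : 0 ≤ t - (qq Φ a v).2 := by linarith [ht.1]
    have h5 : t - (qq Φ a v).2 ≤ 1 / L := by linarith [ht.2]
    have h6 : 0 < L := h3.trans_le hL
    refine ⟨by positivity, ?_⟩
    calc (t - (qq Φ a v).2) * ‖dv Φ v‖ ≤ 1 / L * L := by gcongr
      _ = 1 := by field_simp
  refine le_trans ?_ (measure_mono h1)
  rw [Real.volume_Icc]
  simp

/-- Kakeya sets in `ℝ^4` adapted to a complex structure have full dimension. -/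
theorem ck_dim {J : E 4 →ₗ[ℝ] E 4} (hJ : ∀ x, J (J x) = -x) {M : ℕ} {a : E 4 → E 4}
    {K : Set (E 4)} (h : ComplexKakeya J M a K) : dimH K = 4 := by
  obtain ⟨Φ, hΦ⟩ := exists_basis J hJ
  have hM0 : (0 : ℝ) ≤ M := Nat.cast_nonneg M
  have h1 := dim_kak (by linarith) measurableSet_closedBall (aa_meas Φ a h.meas) (ck_tower hΦ h)
    subset_rfl (measure_closedBall_pos volume 0 one_pos).ne' (K := Φ ⁻¹' K) (by
      intro v _
      have h2 := ck_len (Φ := Φ) h.seg (le_refl ‖dv Φ v‖)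
      have h3 := norm_pos_iff.2 (dv_ne Φ v)
      exact (lt_of_lt_of_le (by simpa using h3) h2).ne')
  rw [ContinuousLinearEquiv.dimH_preimage] at h1
  rw [h1]
  norm_num

/-- Kakeya sets in `ℝ^4` adapted to a complex structure have large neighbourhoods. -/
theorem ck_mink {J : E 4 →ₗ[ℝ] E 4} (hJ : ∀ x, J (J x) = -x) (M : ℕ) (R : ℝ) :
    ∃ (c : ℝ) (p : ℕ), 0 < c ∧ ∀ (a : E 4 → E 4) (K : Set (E 4)), ComplexKakeya J M a K →
      K ⊆ closedBall 0 R → ∀ δ : ℝ, 0 < δ → δ ≤ 1 →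
      ENNReal.ofReal (c / (1 + Real.log (1 / δ)) ^ p) ≤ volume (thickening δ K) := by
  obtain ⟨Φ, hΦ⟩ := exists_basis J hJ
  have hM0 : (0 : ℝ) ≤ M := Nat.cast_nonneg M
  -- constants
  obtain ⟨C, hC, hlip⟩ := lip_vol (E 4) (E 4) rfl
  obtain ⟨L, hL1, hL⟩ : ∃ L : ℝ, 1 ≤ L ∧ ∀ x, ‖Φ x‖ ≤ L * ‖x‖ := by
    refine ⟨‖(Φ : E 4 →L[ℝ] E 4)‖ + 1, ?_, fun x => ?_⟩
    · linarith [norm_nonneg (Φ : E 4 →L[ℝ] E 4)]
    · have h1 : ‖Φ x‖ ≤ ‖(Φ : E 4 →L[ℝ] E 4)‖ * ‖x‖ := (Φ : E 4 →L[ℝ] E 4).le_opNorm x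
      linarith [norm_nonneg x]
  obtain ⟨L', hL'1, hL'⟩ : ∃ L : ℝ, 1 ≤ L ∧ ∀ x, ‖Φ.symm x‖ ≤ L * ‖x‖ := by
    refine ⟨‖(Φ.symm : E 4 →L[ℝ] E 4)‖ + 1, ?_, fun x => ?_⟩
    · linarith [norm_nonneg (Φ.symm : E 4 →L[ℝ] E 4)]
    · have h1 : ‖Φ.symm x‖ ≤ ‖(Φ.symm : E 4 →L[ℝ] E 4)‖ * ‖x‖ :=
        (Φ.symm : E 4 →L[ℝ] E 4).le_opNorm x
      linarith [norm_nonneg x]
  obtain ⟨L₂, hL₂1, hL₂⟩ : ∃ L : ℝ, 1 ≤ L ∧ ∀ v ∈ closedBall (0 : P 3) 1, ‖dv Φ v‖ ≤ L := by
    have hcont : Continuous fun v : P 3 => ‖dv Φ v‖ := by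
      unfold dv
      fun_prop
    obtain ⟨L, hL⟩ := (isCompact_closedBall (0 : P 3) 1).bddAbove_image hcont.continuousOn
    refine ⟨max L 1, le_max_right _ _, fun v hv => ?_⟩
    exact (hL (mem_image_of_mem _ hv)).trans (le_max_left _ _)
  obtain ⟨c, p, hc, hmink⟩ := mink_kak (κ := (M : ℝ) + 2) (R := max 1 (L' * |R|)) (by linarith)
    (le_max_left _ _) 3
  have hv0 : 0 < volume.real (closedBall (0 : P 3) 1) := by
    rw [Measure.real, ENNReal.toReal_pos_iff]
    exact ⟨measure_closedBall_pos volume 0 one_pos, measure_closedBall_lt_top⟩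
  set σ := volume.real (closedBall (0 : P 3) 1) with hσ
  have hl : 0 < 1 + Real.log L := by
    have := Real.log_nonneg hL1
    linarith
  refine ⟨c * (1 / L₂ * σ) ^ p / (1 + Real.log L) ^ p / (C * L' ^ 4), p, by positivity, ?_⟩
  intro a K h hK δ hδ hδ1
  have hL0 : 0 < L := by linarith
  have hδL : δ / L ≤ 1 := by
    rw [div_le_one hL0]; linarith
  have h1 := hmink (closedBall 0 1) (aa Φ a) measurableSet_closedBall (aa_meas Φ a h.meas)
    (ck_tower hΦ h) (closedBall 0 1) (Φ ⁻¹' K) (1 / L₂) σ (δ / L) subset_rfl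
    (closedBall_subset_closedBall (le_max_left _ _)) (by
      intro x hx
      have h2 := hK hx
      rw [mem_closedBall_zero_iff] at h2 ⊢
      have h3 := hL' (Φ x)
      rw [ContinuousLinearEquiv.symm_apply_apply] at h3
      refine h3.trans (le_trans ?_ (le_max_right _ _))
      gcongr
      exact h2.trans (le_abs_self R)) (by positivity) hv0.le
    (fun v hv => ck_len h.seg (hL₂ v hv)) (by
      rw [hσ, ofReal_measureReal measure_closedBall_lt_top.ne]) (by positivity) hδL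
  have h2 : thickening (δ / L) (Φ ⁻¹' K) ⊆ Φ.symm '' thickening δ K := by
    intro x hx
    obtain ⟨y, hy, hxy⟩ := mem_thickening_iff.1 hx
    refine ⟨Φ x, mem_thickening_iff.2 ⟨Φ y, hy, ?_⟩, by simp⟩
    rw [dist_eq_norm, ← map_sub]
    have h3 := hL (x - y)
    rw [dist_eq_norm, lt_div_iff₀ hL0] at hxy
    linarith
  have hL'n : ((Real.toNNReal L' : ℝ≥0) : ℝ) = L' := Real.coe_toNNReal _ (by linarith)
  have h3 : LipschitzOnWith (Real.toNNReal L') Φ.symm (thickening δ K) := by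
    apply LipschitzOnWith.of_dist_le_mul
    intro x _ y _
    rw [hL'n, dist_eq_norm, dist_eq_norm, ← map_sub]
    exact hL' _
  have h4 := hlip _ _ _ h3
  rw [hL'n, finrank_euclideanSpace, Fintype.card_fin] at h4
  have h5 := h1.trans ((measure_mono h2).trans h4)
  have hpos : (0 : ℝ) < C * L' ^ 4 := by positivity
  have h6 : ENNReal.ofReal (c * (1 / L₂ * σ) ^ p / (1 + Real.log L) ^ p /
      (1 + Real.log (1 / δ)) ^ p) ≤ ENNReal.ofReal (C * L' ^ 4) * volume (thickening δ K) := by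
    refine le_trans (ENNReal.ofReal_le_ofReal ?_) h5
    have h7 := log_scale hδ hδ1 hL1
    have h8 := one_le_l (δ := δ / L) (by positivity) hδL
    have h9 := one_le_l hδ hδ1
    have h10 := frac (x := 1 / L₂ * σ) hc.le (by positivity) (by linarith) (by linarith) hl h7
      (p := p)
    refine le_trans (le_of_eq ?_) h10
    rw [div_pow]
    ring
  have h7 : c * (1 / L₂ * σ) ^ p / (1 + Real.log L) ^ p / (C * L' ^ 4) /
      (1 + Real.log (1 / δ)) ^ p = (C * L' ^ 4)⁻¹ * (c * (1 / L₂ * σ) ^ p / (1 + Real.log L) ^ p /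
      (1 + Real.log (1 / δ)) ^ p) := by ring
  rw [h7, ENNReal.ofReal_mul (by positivity), ENNReal.ofReal_inv_of_pos hpos]
  calc (ENNReal.ofReal (C * L' ^ 4))⁻¹ * ENNReal.ofReal (c * (1 / L₂ * σ) ^ p /
        (1 + Real.log L) ^ p / (1 + Real.log (1 / δ)) ^ p)
      ≤ (ENNReal.ofReal (C * L' ^ 4))⁻¹ * (ENNReal.ofReal (C * L' ^ 4) *
        volume (thickening δ K)) := by gcongr
    _ = volume (thickening δ K) := by
        rw [← mul_assoc, ENNReal.inv_mul_cancel (by simpa using hpos) ENNReal.ofReal_ne_top,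
          one_mul]

end Run7.h693.TP
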