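import Mathlib

set_option autoImplicit false

/-!
# Towers of transversal pencils: definitions

`P N` is `ℝ^N` with the maximum norm.  A line of `ℝ^N × ℝ` which is not horizontal is given by its
slope `v ∈ ℝ^N` and its position `x ∈ ℝ^N`: it is the set of the points `(x + t v, t)`, `t ∈ ℝ`.
A family of lines with at most one line in every direction is given by the position `a v` of the
line with slope `v`, for the slopes `v` in a set `D`.
-/

namespace Run7.h693.TP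

/-- `ℝ^N` with the maximum norm -/
abbrev P (N : ℕ) : Type := Fin N → ℝ

/-- the norm of `ℝ^N` -/
noncomputable def nm {N : ℕ} (x : P N) : ℝ := ‖x‖

/-- `U` and its inverse are bounded by `κ`. -/
def Bdd {N m k : ℕ} (κ : ℝ) (U : (P m × P k) ≃L[ℝ] P N) : Prop :=
  (∀ p, nm (U p) ≤ κ * ‖p‖) ∧ ∀ p, ‖p‖ ≤ κ * nm (U p)

/-- The linear map `A b` depends on `b` in a Lipschitz way. -/
def Lip {m k : ℕ} (κ : ℝ) (A : P m → (P k × ℝ) →L[ℝ] P m) : Prop :=
  (∀ q, nm (A 0 q) ≤ κ * ‖q‖) ∧ ∀ b b' q, nm (A b q - A b' q) ≤ κ * nm (b - b') * ‖q‖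

/-- For `‖b‖, ‖b'‖ ≤ κ` the map `A b - A b'` is onto, with a right inverse of norm at most
`κ / ‖b - b'‖`. -/
def Transv {m k : ℕ} (κ : ℝ) (A : P m → (P k × ℝ) →L[ℝ] P m) : Prop :=
  ∀ b b', nm b ≤ κ → nm b' ≤ κ →
    ∀ ξ, ∃ q, A b q - A b' q = nm (b - b') • ξ ∧ ‖q‖ ≤ κ * nm ξ

/-- A transversal pencil: in suitable linear coordinates `ℝ^N = ℝ^m × ℝ^k` (given by `U`) a family
of linear subspaces

`V b = {(A b (y, t), y, t) : (y, t) ∈ ℝ^k × ℝ}`, `b ∈ ℝ^m`, `‖b‖ ≤ κ`,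

of codimension `m` in `ℝ^m × ℝ^k × ℝ`, such that `A b` depends on `b` in a Lipschitz way and any two
different subspaces are transversal, `V b + V b' = ℝ^m × ℝ^k × ℝ`, quantitatively. -/
structure Pencil (κ : ℝ) (N m k : ℕ) where
  /-- the coordinates -/
  U : (P m × P k) ≃L[ℝ] P N
  /-- the subspaces -/
  A : P m → (P k × ℝ) →L[ℝ] P m
  bdd : Bdd κ U
  lip : Lip κ A
  transv : Transv κ A

/-- the slopes of the vectors of height `1` in the subspace `V b` -/
noncomputable def Pencil.slope {κ : ℝ} {N m k : ℕ} (V : Pencil κ N m k) (b : P m) (w : P k) :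
    P N := V.U (V.A b (w, 1), w)

/-- the points of height `0` of the affine subspace `V b + (γ, 0, 0)` -/
noncomputable def Pencil.pos {κ : ℝ} {N m k : ℕ} (V : Pencil κ N m k) (b γ : P m) (y : P k) :
    P N := V.U (V.A b (y, 0) + γ, y)

/-- `Tower κ N D a`: the lines with slopes `v ∈ D` and positions `a v` in `ℝ^N × ℝ` are carried by
a tower of transversal pencils (with constant `κ`).

`N = 0`: there is only one line in `ℝ^0 × ℝ`.

`N > 0`: `a` is measurable, and there is a transversal pencil `V b` of codimension `m > 0` such that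

* every direction `(v, 1)`, `v ∈ D`, belongs to a subspace `V b` with `‖b‖ ≤ κ` (`hcov`);
* for every `b`, the lines of the family whose direction belongs to `V b` are contained in at most
  `M ≤ κ` different affine subspaces `V b + (γ b j, 0, 0)`, `j < M` (`hM`, `hγ`, `hlin`), where the
  translation vectors `γ b j` are arbitrary;
* in each of these affine subspaces, with the coordinates `(y, t)`, the lines of the family which
  belong to it are again carried by a tower of transversal pencils (`hF`). -/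
inductive Tower (κ : ℝ) : (N : ℕ) → Set (P N) → (P N → P N) → Prop
  | point (D : Set (P 0)) (a : P 0 → P 0) : Tower κ 0 D a
  | pencil {N m k M : ℕ} (D : Set (P N)) (a : P N → P N) (hm : 0 < m) (hM : (M : ℝ) ≤ κ)
      (ha : Measurable a) (V : Pencil κ N m k)
      (hcov : ∀ v ∈ D, ∃ b w, nm b ≤ κ ∧ v = V.slope b w)
      (γ : P m → Fin M → P m) (hγ : ∀ b, Function.Injective (γ b))
      (D' : P m → Fin M → Set (P k)) (a' : P m → Fin M → P k → P k)
      (hlin : ∀ b w, nm b ≤ κ → V.slope b w ∈ D → ∃ j, w ∈ D' b j ∧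
        a (V.slope b w) = V.pos b (γ b j) (a' b j w))
      (hF : ∀ b j, nm b ≤ κ → Tower κ k (D' b j) (a' b j)) : Tower κ N D a

theorem Tower.mk' {κ : ℝ} {N m k M : ℕ} (D : Set (P N)) (a : P N → P N) (hm : 0 < m)
    (hM : (M : ℝ) ≤ κ) (ha : Measurable a)
    (U : (P m × P k) ≃L[ℝ] P N) (hU : ∀ p, ‖U p‖ ≤ κ * ‖p‖) (hU' : ∀ p, ‖p‖ ≤ κ * ‖U p‖)
    (A : P m → (P k × ℝ) →L[ℝ] P m) (hA0 : ∀ q, ‖A 0 q‖ ≤ κ * ‖q‖)
    (hA : ∀ b b' q, ‖A b q - A b' q‖ ≤ κ * ‖b - b'‖ * ‖q‖)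
    (hT : ∀ b b', ‖b‖ ≤ κ → ‖b'‖ ≤ κ →
      ∀ ξ, ∃ q, A b q - A b' q = ‖b - b'‖ • ξ ∧ ‖q‖ ≤ κ * ‖ξ‖)
    (hcov : ∀ v ∈ D, ∃ b w, ‖b‖ ≤ κ ∧ v = U (A b (w, 1), w))
    (γ : P m → Fin M → P m) (hγ : ∀ b, Function.Injective (γ b))
    (D' : P m → Fin M → Set (P k)) (a' : P m → Fin M → P k → P k)
    (hlin : ∀ b w, ‖b‖ ≤ κ → U (A b (w, 1), w) ∈ D → ∃ j, w ∈ D' b j ∧
      a (U (A b (w, 1), w)) = U (A b (a' b j w, 0) + γ b j, a' b j w))
    (hF : ∀ b j, ‖b‖ ≤ κ → Tower κ k (D' b j) (a' b j)) : Tower κ N D a :=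
  Tower.pencil D a hm hM ha
    { U := U
      A := A
      bdd := ⟨hU, hU'⟩
      lip := ⟨hA0, hA⟩
      transv := hT } hcov γ hγ D' a' hlin hF

end Run7.h693.TP
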