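import Pool.Agent.Run7.h693.TP.Kak

set_option autoImplicit false

/-!
# Transversal pencils: families in the plane, and complex pencils in `ℝ^4`
-/

open MeasureTheory Set Metric ENNReal NNReal

namespace Run7.h693.TP

/-! ### The plane -/

/-- `ℝ^1 × ℝ^0 = ℝ^1` -/
noncomputable def U10 : (P 1 × P 0) ≃L[ℝ] P 1 :=
  LinearEquiv.toContinuousLinearEquiv
    { toFun := fun x => x.1
      map_add' := fun _ _ => rfl
      map_smul' := fun _ _ => rfl
      invFun := fun y => (y, 0)
      left_inv := fun x => by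
        ext i
        · rfl
        · exact i.elim0
      right_inv := fun _ => rfl }

theorem U10_apply (x : P 1 × P 0) : U10 x = x.1 := rfl

/-- Every measurable family of lines in the plane is carried by a tower. -/
theorem plane_tower {κ : ℝ} (hκ : 1 ≤ κ) (D : Set (P 1)) (hD : D ⊆ closedBall 0 κ)
    (a : P 1 → P 1) (ha : Measurable a) : Tower κ 1 D a := by
  have hκ0 : 0 ≤ κ := by linarith
  refine Tower.mk' (m := 1) (k := 0) (M := 1) D a one_pos (by simpa using hκ) ha U10 ?_ ?_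
    (fun b => (ContinuousLinearMap.snd ℝ (P 0) ℝ).smulRight b) ?_ ?_ ?_ ?_
    (fun b _ => a b) (fun b i j _ => Subsingleton.elim i j) (fun _ _ => univ)
    (fun _ _ _ => 0) ?_ ?_
  · intro p
    rw [U10_apply, Prod.norm_def]
    have : ‖p.1‖ ≤ max ‖p.1‖ ‖p.2‖ := le_max_left _ _
    have h0 := norm_nonneg p.1
    nlinarith
  · intro p
    rw [U10_apply, Prod.norm_def]
    have h1 : p.2 = 0 := Subsingleton.elim _ _
    rw [h1, norm_zero, max_eq_left (norm_nonneg _)]
    have h0 := norm_nonneg p.1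
    nlinarith
  · intro q
    simp only [ContinuousLinearMap.smulRight_apply, smul_zero, norm_zero]
    positivity
  · intro b b' q
    simp only [ContinuousLinearMap.smulRight_apply, ContinuousLinearMap.coe_snd']
    rw [← smul_sub, norm_smul]
    have h1 : ‖q.2‖ ≤ ‖q‖ := norm_snd_le q
    have h2 := norm_nonneg (b - b')
    have h3 := norm_nonneg q
    calc ‖q.2‖ * ‖b - b'‖ ≤ ‖q‖ * ‖b - b'‖ := by gcongr
      _ ≤ κ * (‖b - b'‖ * ‖q‖) := by nlinarith [mul_nonneg h2 h3]
      _ = _ := by ring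
  · intro b b' _ _ ξ
    by_cases hb : b = b'
    · refine ⟨0, ?_, ?_⟩
      · subst hb; simp
      · rw [norm_zero]; positivity
    · have hne : b 0 - b' 0 ≠ 0 := by
        intro h
        apply hb
        ext i
        have : i = 0 := Subsingleton.elim _ _
        subst this
        linarith
      have hnorm : ‖b - b'‖ = |b 0 - b' 0| := by
        rw [Pi.norm_def]
        simp
      refine ⟨(0, ‖b - b'‖ * ξ 0 / (b 0 - b' 0)), ?_, ?_⟩
      · simp only [ContinuousLinearMap.smulRight_apply, ContinuousLinearMap.coe_snd']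
        ext i
        have : i = 0 := Subsingleton.elim _ _
        subst this
        simp only [Pi.sub_apply, Pi.smul_apply, smul_eq_mul]
        field_simp
      · rw [Prod.norm_def, norm_zero, max_eq_right (norm_nonneg _), Real.norm_eq_abs, abs_div,
          abs_mul, hnorm, abs_abs]
        have h1 : 0 < |b 0 - b' 0| := abs_pos.2 hne
        rw [mul_div_assoc, mul_div_left_comm, div_self h1.ne', mul_one]
        have h2 : |ξ 0| ≤ ‖ξ‖ := norm_le_pi_norm ξ 0
        have h3 := norm_nonneg ξ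
        nlinarith
  · intro v hv
    refine ⟨v, 0, by simpa using hD hv, ?_⟩
    rw [U10_apply]
    simp
  · intro b w _ _
    refine ⟨0, mem_univ _, ?_⟩
    rw [U10_apply, U10_apply]
    simp
  · intro b j _
    exact Tower.point _ _

/-! ### Complex pencils -/

/-- `ℝ^2 × ℝ^1 = ℝ^3` -/
noncomputable def U21 : (P 2 × P 1) ≃L[ℝ] P 3 :=
  LinearEquiv.toContinuousLinearEquiv
    { toFun := fun x => ![x.1 0, x.1 1, x.2 0]
      map_add' := fun x y => by
        ext i
        fin_cases i <;> simp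
      map_smul' := fun r x => by
        ext i
        fin_cases i <;> simp
      invFun := fun y => (![y 0, y 1], ![y 2])
      left_inv := fun x => by
        ext i
        · fin_cases i <;> simp
        · fin_cases i; simp
      right_inv := fun y => by
        ext i
        fin_cases i <;> simp }

theorem U21_apply (x : P 2 × P 1) : U21 x = ![x.1 0, x.1 1, x.2 0] := rfl

theorem norm_U21 (x : P 2 × P 1) : ‖U21 x‖ = ‖x‖ := by
  apply le_antisymm
  · rw [pi_norm_le_iff_of_nonneg (norm_nonneg _)]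
    intro i
    rw [U21_apply]
    have h1 : ‖x.1‖ ≤ ‖x‖ := norm_fst_le x
    have h2 : ‖x.2‖ ≤ ‖x‖ := norm_snd_le x
    fin_cases i
    · exact (norm_le_pi_norm x.1 0).trans h1
    · exact (norm_le_pi_norm x.1 1).trans h1
    · exact (norm_le_pi_norm x.2 0).trans h2
  · rw [Prod.norm_def]
    apply max_le
    · rw [pi_norm_le_iff_of_nonneg (norm_nonneg _)]
      intro i
      fin_cases i
      · exact norm_le_pi_norm (U21 x) 0
      · exact norm_le_pi_norm (U21 x) 1
    · rw [pi_norm_le_iff_of_nonneg (norm_nonneg _)]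
      intro i
      fin_cases i
      exact norm_le_pi_norm (U21 x) 2

/-- complex multiplication: `(b₀ + i b₁) (t + i y)` -/
noncomputable def cm (b : P 2) : (P 1 × ℝ) →L[ℝ] P 2 :=
  LinearMap.toContinuousLinearMap
    { toFun := fun q => ![b 0 * q.2 - b 1 * q.1 0, b 1 * q.2 + b 0 * q.1 0]
      map_add' := fun x y => by
        ext i
        fin_cases i <;> simp <;> ring
      map_smul' := fun r x => by
        ext i
        fin_cases i <;> simp <;> ring }

theorem cm_apply (b : P 2) (q : P 1 × ℝ) :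
    cm b q = ![b 0 * q.2 - b 1 * q.1 0, b 1 * q.2 + b 0 * q.1 0] := rfl

theorem cm_sub (b b' : P 2) (q : P 1 × ℝ) : cm b q - cm b' q = cm (b - b') q := by
  rw [cm_apply, cm_apply, cm_apply]
  ext i
  fin_cases i <;> simp <;> ring

theorem cm_norm (b : P 2) (q : P 1 × ℝ) : ‖cm b q‖ ≤ 2 * ‖b‖ * ‖q‖ := by
  have h1 : |q.2| ≤ ‖q‖ := norm_snd_le q
  have h2 : |q.1 0| ≤ ‖q‖ := (norm_le_pi_norm q.1 0).trans (norm_fst_le q)
  have h3 : |b 0| ≤ ‖b‖ := norm_le_pi_norm b 0
  have h4 : |b 1| ≤ ‖b‖ := norm_le_pi_norm b 1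
  have h5 := norm_nonneg b
  have h6 := norm_nonneg q
  rw [pi_norm_le_iff_of_nonneg (by positivity)]
  intro i
  rw [cm_apply]
  fin_cases i
  · change |b 0 * q.2 - b 1 * q.1 0| ≤ _
    calc |b 0 * q.2 - b 1 * q.1 0| ≤ |b 0 * q.2| + |b 1 * q.1 0| := abs_sub _ _
      _ = |b 0| * |q.2| + |b 1| * |q.1 0| := by rw [abs_mul, abs_mul]
      _ ≤ ‖b‖ * ‖q‖ + ‖b‖ * ‖q‖ := by gcongr
      _ = _ := by ring
  · change |b 1 * q.2 + b 0 * q.1 0| ≤ _
    calc |b 1 * q.2 + b 0 * q.1 0| ≤ |b 1 * q.2| + |b 0 * q.1 0| := abs_add_le _ _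
      _ = |b 1| * |q.2| + |b 0| * |q.1 0| := by rw [abs_mul, abs_mul]
      _ ≤ ‖b‖ * ‖q‖ + ‖b‖ * ‖q‖ := by gcongr
      _ = _ := by ring

theorem cm_trans (b : P 2) (ξ : P 2) : ∃ q, cm b q = ‖b‖ • ξ ∧ ‖q‖ ≤ 2 * ‖ξ‖ := by
  by_cases hb : b = 0
  · refine ⟨0, ?_, ?_⟩
    · subst hb; simp
    · rw [norm_zero]; positivity
  · have hn : 0 < ‖b‖ := norm_pos_iff.2 hb
    set D : ℝ := b 0 ^ 2 + b 1 ^ 2 with hD
    have h3 : |b 0| ≤ ‖b‖ := norm_le_pi_norm b 0
    have h4 : |b 1| ≤ ‖b‖ := norm_le_pi_norm b 1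
    have hDn : ‖b‖ ^ 2 ≤ D := by
      have h5 : ‖b‖ ≤ |b 0| ∨ ‖b‖ ≤ |b 1| := by
        by_contra hcon
        push Not at hcon
        have h6 : ‖b‖ < ‖b‖ := by
          rw [pi_norm_lt_iff hn]
          intro i
          fin_cases i
          · exact hcon.1
          · exact hcon.2
        exact lt_irrefl _ h6
      rcases h5 with h5 | h5
      · have : ‖b‖ ^ 2 ≤ |b 0| ^ 2 := by gcongr
        rw [sq_abs] at this
        nlinarith [sq_nonneg (b 1)]
      · have : ‖b‖ ^ 2 ≤ |b 1| ^ 2 := by gcongr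
        rw [sq_abs] at this
        nlinarith [sq_nonneg (b 0)]
    have hD0 : 0 < D := lt_of_lt_of_le (by positivity) hDn
    -- `(t + i y) = ‖b‖ ξ / b`
    refine ⟨(![‖b‖ * (b 0 * ξ 1 - b 1 * ξ 0) / D], ‖b‖ * (b 0 * ξ 0 + b 1 * ξ 1) / D), ?_, ?_⟩
    · rw [cm_apply]
      ext i
      fin_cases i
      · simp
        field_simp
        rw [hD]; ring
      · simp
        field_simp
        rw [hD]; ring
    · have h7 : |ξ 0| ≤ ‖ξ‖ := norm_le_pi_norm ξ 0
      have h8 : |ξ 1| ≤ ‖ξ‖ := norm_le_pi_norm ξ 1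
      have h9 := norm_nonneg ξ
      have key : ∀ x : ℝ, |x| ≤ 2 * ‖b‖ * ‖ξ‖ → |‖b‖ * x / D| ≤ 2 * ‖ξ‖ := by
        intro x hx
        rw [abs_div, abs_mul, abs_of_pos hn, abs_of_pos hD0, div_le_iff₀ hD0]
        calc ‖b‖ * |x| ≤ ‖b‖ * (2 * ‖b‖ * ‖ξ‖) := by gcongr
          _ = 2 * ‖ξ‖ * ‖b‖ ^ 2 := by ring
          _ ≤ _ := by gcongr
      rw [Prod.norm_def]
      apply max_le
      · rw [pi_norm_le_iff_of_nonneg (by positivity)]
        intro i
        fin_cases i
        change |‖b‖ * (b 0 * ξ 1 - b 1 * ξ 0) / D| ≤ _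
        apply key
        calc |b 0 * ξ 1 - b 1 * ξ 0| ≤ |b 0 * ξ 1| + |b 1 * ξ 0| := abs_sub _ _
          _ = |b 0| * |ξ 1| + |b 1| * |ξ 0| := by rw [abs_mul, abs_mul]
          _ ≤ ‖b‖ * ‖ξ‖ + ‖b‖ * ‖ξ‖ := by gcongr
          _ = _ := by ring
      · change |‖b‖ * (b 0 * ξ 0 + b 1 * ξ 1) / D| ≤ _
        apply key
        calc |b 0 * ξ 0 + b 1 * ξ 1| ≤ |b 0 * ξ 0| + |b 1 * ξ 1| := abs_add_le _ _
          _ = |b 0| * |ξ 0| + |b 1| * |ξ 1| := by rw [abs_mul, abs_mul]
          _ ≤ ‖b‖ * ‖ξ‖ + ‖b‖ * ‖ξ‖ := by gcongr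
          _ = _ := by ring

/-- `M` pairwise different elements containing a given set of at most `M` elements -/
theorem enum {X : Type*} [Infinite X] {M : ℕ} (F : Finset X) (hF : F.card ≤ M) :
    ∃ γ : Fin M → X, Function.Injective γ ∧ ∀ c ∈ F, ∃ j, γ j = c := by
  obtain ⟨G, hG, hGM⟩ := Infinite.exists_superset_card_eq F M hF
  refine ⟨fun j => ((G.equivFinOfCardEq hGM).symm j : X), ?_, ?_⟩
  · intro i j hij
    exact (G.equivFinOfCardEq hGM).symm.injective (Subtype.ext hij)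
  · intro c hc
    exact ⟨G.equivFinOfCardEq hGM ⟨c, hG hc⟩, by simp⟩

/-- A family of lines in `ℝ^4 = ℂ²` is carried by a tower if, for every `b ∈ ℂ`, the lines with
complex slope `b` are contained in at most `M` complex lines. -/
theorem complex_tower {κ : ℝ} (hκ : 2 ≤ κ) {M : ℕ} (hM : (M : ℝ) ≤ κ) (D : Set (P 3))
    (hD : D ⊆ closedBall 0 1) (a : P 3 → P 3) (ha : Measurable a) (F : P 2 → Finset (P 2))
    (hF : ∀ b, (F b).card ≤ M)
    (hγ : ∀ b w, U21 (cm b (w, 1), w) ∈ D → ∃ c ∈ F b, a (U21 (cm b (w, 1), w)) =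
      U21 (cm b (![a (U21 (cm b (w, 1), w)) 2], 0) + c, ![a (U21 (cm b (w, 1), w)) 2])) :
    Tower κ 3 D a := by
  choose γ hγi hγF using fun b => enum (F b) (hF b)
  have hκ0 : 0 ≤ κ := by linarith
  have hcov : ∀ v ∈ D, ∃ (b : P 2) (w : P 1), ‖b‖ ≤ κ ∧ v = U21 (cm b (w, 1), w) := by
    intro v hv
    have hv1 := hD hv
    rw [mem_closedBall_zero_iff] at hv1
    have hv0 : |v 0| ≤ 1 := (norm_le_pi_norm v 0).trans hv1
    have hv2 : |v 1| ≤ 1 := (norm_le_pi_norm v 1).trans hv1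
    set D' : ℝ := 1 + v 2 ^ 2 with hD'
    have hD'1 : 1 ≤ D' := by
      rw [hD']; nlinarith [sq_nonneg (v 2)]
    have hvv : |v 2| ≤ 1 := (norm_le_pi_norm v 2).trans hv1
    -- `b = (v₀ + i v₁) / (1 + i v₂)`
    refine ⟨![(v 0 + v 1 * v 2) / D', (v 1 - v 0 * v 2) / D'], ![v 2], ?_, ?_⟩
    · rw [pi_norm_le_iff_of_nonneg hκ0]
      intro i
      have key : ∀ x : ℝ, |x| ≤ 2 → |x / D'| ≤ κ := by
        intro x hx
        rw [abs_div, abs_of_pos (by linarith : 0 < D'), div_le_iff₀ (by linarith)]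
        nlinarith
      fin_cases i
      · change |(v 0 + v 1 * v 2) / D'| ≤ κ
        apply key
        calc |v 0 + v 1 * v 2| ≤ |v 0| + |v 1 * v 2| := abs_add_le _ _
          _ = |v 0| + |v 1| * |v 2| := by rw [abs_mul]
          _ ≤ 1 + 1 * 1 := by gcongr
          _ = 2 := by norm_num
      · change |(v 1 - v 0 * v 2) / D'| ≤ κ
        apply key
        calc |v 1 - v 0 * v 2| ≤ |v 1| + |v 0 * v 2| := abs_sub _ _
          _ = |v 1| + |v 0| * |v 2| := by rw [abs_mul]
          _ ≤ 1 + 1 * 1 := by gcongr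
          _ = 2 := by norm_num
    · rw [cm_apply, U21_apply]
      have hne : D' ≠ 0 := by linarith
      ext i
      fin_cases i
      · simp
        field_simp
        rw [hD']; ring
      · simp
        field_simp
        rw [hD']; ring
      · simp
  have hslp : ∀ b : P 2, Measurable fun w : P 1 => U21 (cm b (w, 1), w) := by
    intro b
    have : Continuous fun w : P 1 => U21 (cm b (w, 1), w) := by fun_prop
    exact this.measurable
  refine Tower.mk' (m := 2) (k := 1) (M := M) D a two_pos hM ha U21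
    ?_ ?_ cm ?_ ?_ ?_ hcov γ hγi
    (fun b _ => {w | U21 (cm b (w, 1), w) ∈ D})
    (fun b _ w => ![a (U21 (cm b (w, 1), w)) 2]) ?_ ?_
  · intro p
    rw [norm_U21]
    have := norm_nonneg p
    nlinarith
  · intro p
    rw [norm_U21]
    have := norm_nonneg p
    nlinarith
  · intro q
    have h1 : cm 0 q = 0 := by
      rw [cm_apply]
      ext i
      fin_cases i <;> simp
    rw [h1, norm_zero]
    positivity
  · intro b b' q
    rw [cm_sub]
    refine (cm_norm _ _).trans ?_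
    gcongr
  · intro b b' _ _ ξ
    obtain ⟨q, h1, h2⟩ := cm_trans (b - b') ξ
    refine ⟨q, by rw [cm_sub]; exact h1, h2.trans ?_⟩
    gcongr
  · intro b w _ hw
    obtain ⟨c, hc, h1⟩ := hγ b w hw
    obtain ⟨j, hj⟩ := hγF b c hc
    exact ⟨j, hw, by rw [hj]; exact h1⟩
  · intro b j _
    apply plane_tower (by linarith)
    · intro w hw
      have h1 := hD hw
      rw [mem_closedBall_zero_iff, norm_U21] at h1
      rw [mem_closedBall_zero_iff]
      exact (norm_snd_le ((cm b (w, 1), w) : P 2 × P 1)).trans (h1.trans (by linarith))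
    · have h2 : Measurable fun w : P 1 => a (U21 (cm b (w, 1), w)) 2 :=
        (measurable_pi_apply 2).comp (ha.comp (hslp b))
      refine measurable_pi_iff.2 fun i => ?_
      have h3 : (fun w : P 1 => (![a (U21 (cm b (w, 1), w)) 2] : P 1) i) =
          fun w : P 1 => a (U21 (cm b (w, 1), w)) 2 := by
        funext w
        have : i = 0 := Subsingleton.elim _ _
        subst this
        rfl
      rw [h3]
      exact h2

end Run7.h693.TP
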