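import Pool.Agent.Run7.h693.TP.Tow
import Pool.Agent.H023R3.KakGen

set_option autoImplicit false

/-!
# Transversal pencils: Hausdorff measure

The covering lemma `Pool.Agent.H023R3.KG.small_cover` of the starting files is used; `weights` is
taken from the starting file `H023R3/KakSet.lean`.
-/

open MeasureTheory Set Metric ENNReal NNReal

namespace Run7.h693.TP

theorem meas_hts {N : ℕ} {a : P N → P N} (ha : Measurable a) {E : Set (P N × ℝ)}
    (hE : MeasurableSet E) : Measurable fun v => volume (hts a E v) := by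
  have h1 : Measurable fun z : P N × ℝ => ((a z.1 + z.2 • z.1, z.2) : P N × ℝ) :=
    ((ha.comp measurable_fst).add (measurable_snd.smul measurable_fst)).prodMk measurable_snd
  exact measurable_measure_prodMk_left (h1 hE)

theorem vol_ball {N : ℕ} (x : P N × ℝ) {ρ : ℝ} (hρ : 0 ≤ ρ) :
    volume (closedBall x ρ) = ENNReal.ofReal ((2 * ρ) ^ (N + 1)) := by
  have h1 : closedBall x ρ = closedBall x.1 ρ ×ˢ closedBall x.2 ρ := by
    rw [closedBall_prod_same]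
  rw [h1, Measure.volume_eq_prod, Measure.prod_prod, Real.volume_pi_closedBall _ hρ,
    Fintype.card_fin, Real.volume_closedBall, ← ENNReal.ofReal_mul (by positivity), pow_succ]

theorem weights : ∃ c₀ : ℝ, 0 < c₀ ∧ ∑' j : ℕ, ENNReal.ofReal (c₀ / ((j : ℝ) + 1) ^ 2) < 1 := by
  have hs : Summable (fun j : ℕ => 1 / ((j : ℝ) + 1) ^ 2) := by
    have := (_root_.summable_nat_add_iff 1).2 (Real.summable_one_div_nat_pow.2 (by norm_num : 1 < 2))
    simpa using this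
  set T := ∑' j : ℕ, 1 / ((j : ℝ) + 1) ^ 2 with hT
  have hT0 : 0 ≤ T := tsum_nonneg (fun j => by positivity)
  refine ⟨1 / (2 * (T + 1)), by positivity, ?_⟩
  have hs2 : Summable (fun j : ℕ => 1 / (2 * (T + 1)) / ((j : ℝ) + 1) ^ 2) := by
    have := hs.mul_left (1 / (2 * (T + 1)))
    refine this.congr (fun j => ?_)
    ring
  rw [← ENNReal.ofReal_tsum_of_nonneg (fun j => by positivity) hs2]
  have h1 : ∑' j : ℕ, 1 / (2 * (T + 1)) / ((j : ℝ) + 1) ^ 2 = 1 / (2 * (T + 1)) * T := by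
    rw [hT, ← _root_.tsum_mul_left]
    apply tsum_congr
    intro j
    ring
  rw [h1, ← ENNReal.ofReal_one]
  refine (ENNReal.ofReal_lt_ofReal_iff one_pos).2 ?_
  rw [one_div_mul_eq_div, div_lt_one (by positivity)]
  linarith

theorem poly_le {η : ℝ} (hη : 0 < η) (q : ℕ) : ∃ C : ℝ, 0 < C ∧
    ∀ j : ℕ, ((j : ℝ) + 1) ^ q ≤ C * ((1 / 2 : ℝ) ^ j) ^ (-η) := by
  have hl2 : 0 < Real.log 2 := Real.log_pos (by norm_num)
  set θ : ℝ := η * Real.log 2 / (q + 1) with hθ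
  have hθ0 : 0 < θ := by positivity
  refine ⟨(1 + 1 / θ) ^ q, by positivity, ?_⟩
  intro j
  have h1 : (j : ℝ) + 1 ≤ (1 + 1 / θ) * Real.exp (j * θ) := by
    have h2 := Real.add_one_le_exp (j * θ)
    have h3 : (1 + 1 / θ) * (j * θ + 1) ≤ (1 + 1 / θ) * Real.exp (j * θ) := by gcongr
    have h4 : (1 + 1 / θ) * (j * θ + 1) = j * θ + 1 + j + 1 / θ := by field_simp; ring
    have h5 : 0 ≤ (j : ℝ) * θ := by positivity
    have h6 : 0 ≤ 1 / θ := by positivity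
    linarith
  have h2 : Real.exp (j * θ) ^ q ≤ ((1 / 2 : ℝ) ^ j) ^ (-η) := by
    have h3 : ((1 / 2 : ℝ) ^ j) ^ (-η) = Real.exp (j * (η * Real.log 2)) := by
      rw [← Real.rpow_natCast (1 / 2 : ℝ) j, ← Real.rpow_mul (by norm_num),
        Real.rpow_def_of_pos (by norm_num)]
      congr 1
      rw [one_div, Real.log_inv]
      ring
    rw [h3, ← Real.exp_nat_mul]
    apply Real.exp_le_exp.2
    have h4 : (q : ℝ) * θ ≤ η * Real.log 2 := by
      rw [hθ, mul_div_assoc', div_le_iff₀ (by positivity)]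
      have : 0 ≤ η * Real.log 2 := by positivity
      nlinarith
    calc (q : ℝ) * (j * θ) = j * (q * θ) := by ring
      _ ≤ j * (η * Real.log 2) := by gcongr
  calc ((j : ℝ) + 1) ^ q ≤ ((1 + 1 / θ) * Real.exp (j * θ)) ^ q := by gcongr
    _ = (1 + 1 / θ) ^ q * Real.exp (j * θ) ^ q := mul_pow _ _ _
    _ ≤ _ := by gcongr

theorem haus_aux {κ R : ℝ} (hκ : 1 ≤ κ) (hR : 1 ≤ R) {N : ℕ} {D : Set (P N)}
    (hD : MeasurableSet D) {a : P N → P N} (ha : Measurable a) (h : Tower κ N D a)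
    {S : Set (P N)} (hSD : S ⊆ D) (hSR : S ⊆ closedBall 0 R) {K : Set (P N × ℝ)}
    (hKR : K ⊆ closedBall 0 R) {lam : ℝ} (hlam : 0 < lam)
    (hS : ∀ v ∈ S, ENNReal.ofReal lam ≤ volume (hts a K v)) (hS0 : volume S ≠ 0) {s : ℝ}
    (hs : 0 < s) (hsN : s < N + 1) : μH[s] K ≠ 0 := by
  intro hz
  obtain ⟨c, p, hc, hp, hgood⟩ := tower_good κ hκ N (R + 1) (by linarith)
  have hG := hgood N le_rfl D a h
  obtain ⟨c₀, hc₀, hw⟩ := weights
  set η : ℝ := N + 1 - s with hη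
  have hη0 : 0 < η := by linarith
  obtain ⟨C, hC, hpoly⟩ := poly_le hη0 (5 * p)
  have hSfin : volume S ≠ ∞ := by
    refine ((measure_mono hSR).trans_lt ?_).ne
    rw [Real.volume_pi_closedBall _ (by linarith)]
    exact ENNReal.ofReal_lt_top
  set σ : ℝ := (volume S).toReal with hσ
  have hσ0 : 0 < σ := ENNReal.toReal_pos hS0 hSfin
  have hσS : volume S = ENNReal.ofReal σ := (ENNReal.ofReal_toReal hSfin).symm
  set cs : ℝ := c * (lam * σ * c₀ ^ 2) ^ p / C with hcs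
  have hcs0 : 0 < cs := by positivity
  -- lower bound
  have hlow : ∀ j : ℕ, cs ≤ c * (lam * (c₀ / ((j : ℝ) + 1) ^ 2) * (σ * (c₀ / ((j : ℝ) + 1) ^ 2)) /
      (1 + Real.log (1 / (1 / 2) ^ j))) ^ p * ((1 / 2 : ℝ) ^ j) ^ (-η) := by
    intro j
    have hj : (0 : ℝ) < (j : ℝ) + 1 := by positivity
    have hl : 1 + Real.log (1 / (1 / 2) ^ j) ≤ (j : ℝ) + 1 := by
      rw [one_div, ← inv_pow, Real.log_pow]
      have : Real.log ((1 / 2 : ℝ)⁻¹) ≤ 1 := by
        have h1 := Real.log_le_sub_one_of_pos (x := (1 / 2 : ℝ)⁻¹) (by norm_num)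
        norm_num at h1 ⊢
        linarith
      have h2 : (j : ℝ) * Real.log ((1 / 2 : ℝ)⁻¹) ≤ j * 1 := by gcongr
      linarith
    have hl1 : 1 ≤ 1 + Real.log (1 / (1 / 2) ^ j) :=
      one_le_l (by positivity) (pow_le_one₀ (by norm_num) (by norm_num))
    have h1 : lam * σ * c₀ ^ 2 / ((j : ℝ) + 1) ^ 5 ≤
        lam * (c₀ / ((j : ℝ) + 1) ^ 2) * (σ * (c₀ / ((j : ℝ) + 1) ^ 2)) /
          (1 + Real.log (1 / (1 / 2) ^ j)) := by
      rw [le_div_iff₀ (by linarith)]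
      calc lam * σ * c₀ ^ 2 / ((j : ℝ) + 1) ^ 5 * (1 + Real.log (1 / (1 / 2) ^ j))
          ≤ lam * σ * c₀ ^ 2 / ((j : ℝ) + 1) ^ 5 * ((j : ℝ) + 1) := by gcongr
        _ = _ := by field_simp
    have h2 := hpoly j
    have h3 : 0 < ((1 / 2 : ℝ) ^ j) ^ (-η) := by positivity
    calc cs = c * ((lam * σ * c₀ ^ 2) ^ p / (((j : ℝ) + 1) ^ (5 * p))) *
          (((j : ℝ) + 1) ^ (5 * p) / C) := by rw [hcs]; field_simp
      _ ≤ c * ((lam * σ * c₀ ^ 2) ^ p / (((j : ℝ) + 1) ^ (5 * p))) *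
          (C * ((1 / 2 : ℝ) ^ j) ^ (-η) / C) := by gcongr
      _ = c * (lam * σ * c₀ ^ 2 / ((j : ℝ) + 1) ^ 5) ^ p * ((1 / 2 : ℝ) ^ j) ^ (-η) := by
          have h7 : (lam * σ * c₀ ^ 2 / ((j : ℝ) + 1) ^ 5) ^ p =
              (lam * σ * c₀ ^ 2) ^ p / ((j : ℝ) + 1) ^ (5 * p) := by
            rw [div_pow, ← pow_mul]
          rw [h7]
          have h8 : C * ((1 / 2 : ℝ) ^ j) ^ (-η) / C = ((1 / 2 : ℝ) ^ j) ^ (-η) := by
            rw [mul_div_assoc, mul_comm C, div_mul_cancel₀ _ hC.ne']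
          rw [h8]
      _ ≤ _ := by gcongr
  -- the cover
  set ε : ℝ := min (1 / 2) (cs / (4 * 6 ^ (N + 1))) with hε
  have hε0 : 0 < ε := by positivity
  obtain ⟨t, r, ht, hr0, hr, hsum⟩ := Pool.Agent.H023R3.KG.small_cover hs hz hε0
  have hterm : ∀ i, ENNReal.ofReal (r i ^ s) ≤ ENNReal.ofReal (2 * ε) := fun i =>
    (ENNReal.le_tsum i).trans hsum
  have hr1 : ∀ i, r i ≤ 1 := by
    intro i
    have h1 := hterm i
    rw [ENNReal.ofReal_le_ofReal_iff (by positivity)] at h1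
    have h2 : r i ^ s ≤ 1 := h1.trans (by
      have := min_le_left (1 / 2) (cs / (4 * 6 ^ (N + 1)))
      linarith)
    by_contra h3
    rw [not_le] at h3
    exact absurd h2 (not_le.2 (Real.one_lt_rpow h3 hs))
  classical
  choose x hx using fun i => (show ∃ x : P N × ℝ, (t i ∩ K).Nonempty → x ∈ t i ∩ K from by
    by_cases hne : (t i ∩ K).Nonempty
    · exact ⟨hne.some, fun _ => hne.some_mem⟩
    · exact ⟨0, fun h => absurd h hne⟩)
  set B : ℕ → Set (P N × ℝ) := fun i => if (t i ∩ K).Nonempty then closedBall (x i) (r i) else ∅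
    with hB
  have hBm : ∀ i, MeasurableSet (B i) := by
    intro i
    simp only [hB]
    split_ifs
    · exact measurableSet_closedBall
    · exact MeasurableSet.empty
  have hBR : ∀ i, B i ⊆ closedBall 0 (R + 1) := by
    intro i
    simp only [hB]
    split_ifs with hne
    · intro y hy
      have h1 := hKR (hx i hne).2
      rw [mem_closedBall] at hy h1 ⊢
      have h2 := dist_triangle y (x i) 0
      have h3 := hr1 i
      linarith
    · exact empty_subset _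
  have hKB : ∀ y ∈ K, ∃ i, y ∈ B i := by
    intro y hy
    obtain ⟨i, hi⟩ := mem_iUnion.1 (ht hy)
    refine ⟨i, ?_⟩
    have hne : (t i ∩ K).Nonempty := ⟨y, hi, hy⟩
    simp only [hB, hne, if_true]
    exact hr i _ hi _ (hx i hne).1
  set E : ℕ → Set (P N × ℝ) := fun j => ⋃ i ∈ {i : ℕ | (1 / 2 : ℝ) ^ (j + 1) < r i ∧
    r i ≤ (1 / 2) ^ j}, B i with hE
  have hEm : ∀ j, MeasurableSet (E j) := fun j =>
    MeasurableSet.biUnion (Set.to_countable _) fun i _ => hBm i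
  have hER : ∀ j, E j ⊆ closedBall 0 (R + 1) := fun j => iUnion₂_subset fun i _ => hBR i
  have hKE : K ⊆ ⋃ j, E j := by
    intro y hy
    obtain ⟨i, hi⟩ := hKB y hy
    obtain ⟨j, hj1, hj2⟩ := exists_nat_pow_near_of_lt_one (hr0 i) (hr1 i)
      (by norm_num : (0 : ℝ) < 1 / 2) (by norm_num)
    exact mem_iUnion.2 ⟨j, mem_iUnion₂.2 ⟨i, ⟨hj1, hj2⟩, hi⟩⟩
  -- pigeonhole
  set T : ℕ → Set (P N) := fun j => {v | (v ∈ D ∧ v ∈ closedBall (0 : P N) R) ∧
    ENNReal.ofReal (lam * (c₀ / ((j : ℝ) + 1) ^ 2)) ≤ volume (hts a (E j) v)} with hT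
  have hTm : ∀ j, MeasurableSet (T j) := fun j =>
    (hD.inter measurableSet_closedBall).inter
      (measurableSet_le measurable_const (meas_hts ha (hEm j)))
  have hST : S ⊆ ⋃ j, T j := by
    intro v hv
    by_contra hcon
    have h1 : ∀ j, volume (hts a (E j) v) ≤ ENNReal.ofReal (lam * (c₀ / ((j : ℝ) + 1) ^ 2)) := by
      intro j
      by_contra h2
      exact hcon (mem_iUnion.2 ⟨j, ⟨hSD hv, hSR hv⟩, (not_le.1 h2).le⟩)
    have h2 : volume (hts a K v) ≤ ∑' j, volume (hts a (E j) v) := by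
      refine le_trans (measure_mono ?_) (measure_iUnion_le _)
      intro u hu
      obtain ⟨j, hj⟩ := mem_iUnion.1 (hKE hu)
      exact mem_iUnion.2 ⟨j, hj⟩
    have h3 : ∑' j, volume (hts a (E j) v) ≤
        ENNReal.ofReal lam * ∑' j : ℕ, ENNReal.ofReal (c₀ / ((j : ℝ) + 1) ^ 2) := by
      rw [← ENNReal.tsum_mul_left]
      apply ENNReal.tsum_le_tsum
      intro j
      rw [← ENNReal.ofReal_mul hlam.le]
      exact h1 j
    have h4 : ENNReal.ofReal lam * ∑' j : ℕ, ENNReal.ofReal (c₀ / ((j : ℝ) + 1) ^ 2) <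
        ENNReal.ofReal lam * 1 :=
      ENNReal.mul_lt_mul_right (by simpa using hlam) ENNReal.ofReal_ne_top hw
    rw [mul_one] at h4
    exact absurd ((hS v hv).trans (h2.trans h3)) (not_le.2 h4)
  have hj : ∃ j : ℕ, ENNReal.ofReal (σ * (c₀ / ((j : ℝ) + 1) ^ 2)) ≤ volume (T j) := by
    by_contra hcon
    push Not at hcon
    have h2 : volume S ≤ ∑' j, volume (T j) := (measure_mono hST).trans (measure_iUnion_le _)
    have h3 : ∑' j, volume (T j) ≤
        ENNReal.ofReal σ * ∑' j : ℕ, ENNReal.ofReal (c₀ / ((j : ℝ) + 1) ^ 2) := by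
      rw [← ENNReal.tsum_mul_left]
      apply ENNReal.tsum_le_tsum
      intro j
      rw [← ENNReal.ofReal_mul hσ0.le]
      exact (hcon j).le
    have h4 : ENNReal.ofReal σ * ∑' j : ℕ, ENNReal.ofReal (c₀ / ((j : ℝ) + 1) ^ 2) <
        ENNReal.ofReal σ * 1 :=
      ENNReal.mul_lt_mul_right (by simpa using hσ0) ENNReal.ofReal_ne_top hw
    rw [mul_one] at h4
    have h5 := h2.trans h3
    rw [hσS] at h5
    exact absurd h5 (not_le.2 h4)
  obtain ⟨j, hj⟩ := hj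
  have hδ0 : (0 : ℝ) < (1 / 2) ^ j := by positivity
  have hδ1 : ((1 : ℝ) / 2) ^ j ≤ 1 := pow_le_one₀ (by norm_num) (by norm_num)
  have h1 := hG ((1 / 2) ^ j) (lam * (c₀ / ((j : ℝ) + 1) ^ 2)) (σ * (c₀ / ((j : ℝ) + 1) ^ 2))
    (E j) (T j) hδ0 hδ1 (by positivity) (by positivity) (hEm j) (hER j) (hTm j)
    (fun v hv => hv.1.1) (fun v hv => closedBall_subset_closedBall (by linarith) hv.1.2)
    (fun v hv => hv.2) hj
  have h2 : thickening ((1 / 2) ^ j) (E j) ⊆ ⋃ i ∈ {i : ℕ | (1 / 2 : ℝ) ^ (j + 1) < r i ∧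
      r i ≤ (1 / 2) ^ j}, closedBall (x i) (3 * r i) := by
    intro z hz
    obtain ⟨y, hy, hzy⟩ := mem_thickening_iff.1 hz
    obtain ⟨i, hi, hyi⟩ := mem_iUnion₂.1 hy
    refine mem_iUnion₂.2 ⟨i, hi, ?_⟩
    have hyi' : dist y (x i) ≤ r i := by
      simp only [hB] at hyi
      split_ifs at hyi with hne
      · exact hyi
      · exact absurd hyi (notMem_empty _)
    have h3 := dist_triangle z y (x i)
    have h4 : (1 / 2 : ℝ) ^ (j + 1) < r i := hi.1
    rw [pow_succ] at h4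
    rw [mem_closedBall]
    linarith
  have h3 : volume (thickening ((1 / 2) ^ j) (E j)) ≤
      ENNReal.ofReal (6 ^ (N + 1) * ((1 / 2 : ℝ) ^ j) ^ η * (2 * ε)) := by
    refine (measure_mono h2).trans ((measure_biUnion_le _ (Set.to_countable _) _).trans ?_)
    have h4 : ∀ i ∈ {i : ℕ | (1 / 2 : ℝ) ^ (j + 1) < r i ∧ r i ≤ (1 / 2) ^ j},
        volume (closedBall (x i) (3 * r i)) ≤
          ENNReal.ofReal (6 ^ (N + 1) * ((1 / 2 : ℝ) ^ j) ^ η) * ENNReal.ofReal (r i ^ s) := by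
      intro i hi
      rw [vol_ball _ (by have := hr0 i; positivity), ← ENNReal.ofReal_mul (by positivity)]
      apply ENNReal.ofReal_le_ofReal
      have h5 : r i ^ (N + 1) = r i ^ η * r i ^ s := by
        rw [← Real.rpow_add (hr0 i), hη, ← Real.rpow_natCast]
        congr 1
        push_cast
        ring
      have h6 : r i ^ η ≤ ((1 / 2 : ℝ) ^ j) ^ η := by
        apply Real.rpow_le_rpow (hr0 i).le hi.2 hη0.le
      have h7 : 0 ≤ r i ^ s := Real.rpow_nonneg (hr0 i).le _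
      calc (2 * (3 * r i)) ^ (N + 1) = 6 ^ (N + 1) * (r i ^ η * r i ^ s) := by
            rw [← h5, ← mul_pow]; congr 1; ring
        _ ≤ 6 ^ (N + 1) * (((1 / 2 : ℝ) ^ j) ^ η * r i ^ s) := by gcongr
        _ = _ := by ring
    calc ∑' i : {i : ℕ | (1 / 2 : ℝ) ^ (j + 1) < r i ∧ r i ≤ (1 / 2) ^ j},
          volume (closedBall (x i) (3 * r i))
        ≤ ∑' i : {i : ℕ | (1 / 2 : ℝ) ^ (j + 1) < r i ∧ r i ≤ (1 / 2) ^ j},
          ENNReal.ofReal (6 ^ (N + 1) * ((1 / 2 : ℝ) ^ j) ^ η) * ENNReal.ofReal (r i ^ s) :=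
          ENNReal.tsum_le_tsum fun i => h4 i i.2
      _ = ENNReal.ofReal (6 ^ (N + 1) * ((1 / 2 : ℝ) ^ j) ^ η) *
          ∑' i : {i : ℕ | (1 / 2 : ℝ) ^ (j + 1) < r i ∧ r i ≤ (1 / 2) ^ j},
            ENNReal.ofReal (r i ^ s) := ENNReal.tsum_mul_left
      _ ≤ ENNReal.ofReal (6 ^ (N + 1) * ((1 / 2 : ℝ) ^ j) ^ η) *
          ∑' i : ℕ, ENNReal.ofReal (r i ^ s) := by
          gcongr
          exact ENNReal.tsum_comp_le_tsum_of_injective Subtype.val_injective _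
      _ ≤ ENNReal.ofReal (6 ^ (N + 1) * ((1 / 2 : ℝ) ^ j) ^ η) * ENNReal.ofReal (2 * ε) := by
          gcongr
      _ = _ := by rw [← ENNReal.ofReal_mul (by positivity)]
  have h4 := h1.trans h3
  rw [ENNReal.ofReal_le_ofReal_iff (by positivity)] at h4
  have h5 := hlow j
  have h6 : cs ≤ 6 ^ (N + 1) * (2 * ε) := by
    refine h5.trans ?_
    have h7 : ((1 / 2 : ℝ) ^ j) ^ η * ((1 / 2 : ℝ) ^ j) ^ (-η) = 1 := by
      rw [← Real.rpow_add hδ0]; simp
    calc _ ≤ 6 ^ (N + 1) * ((1 / 2 : ℝ) ^ j) ^ η * (2 * ε) * ((1 / 2 : ℝ) ^ j) ^ (-η) := by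
          gcongr
      _ = 6 ^ (N + 1) * (2 * ε) * (((1 / 2 : ℝ) ^ j) ^ η * ((1 / 2 : ℝ) ^ j) ^ (-η)) := by ring
      _ = _ := by rw [h7, mul_one]
  have h7 : ε ≤ cs / (4 * 6 ^ (N + 1)) := min_le_right _ _
  have h8 : 6 ^ (N + 1) * (2 * ε) ≤ cs / 2 := by
    calc 6 ^ (N + 1) * (2 * ε) ≤ 6 ^ (N + 1) * (2 * (cs / (4 * 6 ^ (N + 1)))) := by gcongr
      _ = cs / 2 := by field_simp; norm_num
  linarith

end Run7.h693.TP
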