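import Pool.Agent.Run7.h693.TP.Haus

set_option autoImplicit false

/-!
# Transversal pencils: dimension and neighbourhoods of Kakeya sets
-/

open MeasureTheory Set Metric ENNReal NNReal

namespace Run7.h693.TP

/-- Euclidean space of dimension `n` -/
abbrev E (n : ℕ) : Type := EuclideanSpace ℝ (Fin n)

/-- The point of height `t` of the line with position `x` and slope `v`; the coordinate with
number `0` of `ℝ^(N+1)` is the height. -/
noncomputable def pt {N : ℕ} (x v : P N) (t : ℝ) : E (N + 1) :=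
  WithLp.toLp 2 (Fin.cons t (x + t • v) : Fin (N + 1) → ℝ)

theorem dim_prod {κ : ℝ} (hκ : 1 ≤ κ) {N : ℕ} {D : Set (P N)} (hD : MeasurableSet D)
    {a : P N → P N} (ha : Measurable a) (h : Tower κ N D a) {S : Set (P N)} (hSD : S ⊆ D)
    (hS0 : volume S ≠ 0) {K : Set (P N × ℝ)} (hK : ∀ v ∈ S, volume (hts a K v) ≠ 0) :
    dimH K = (N + 1 : ℕ) := by
  apply le_antisymm
  · have h1 := dimH_mono (subset_univ K)
    rw [Real.dimH_univ_eq_finrank] at h1
    simpa using h1
  · by_contra hlt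
    rw [not_le] at hlt
    obtain ⟨s, hs1, hs2⟩ := ENNReal.lt_iff_exists_nnreal_btwn.1 hlt
    have hs0 : (0 : ℝ) < s := by
      have : (0 : ℝ≥0∞) < s := lt_of_le_of_lt zero_le hs1
      exact_mod_cast this
    have hsN : (s : ℝ) < N + 1 := by
      have : (s : ℝ≥0∞) < ((N + 1 : ℕ) : ℝ≥0) := by exact_mod_cast hs2
      have h2 : s < ((N + 1 : ℕ) : ℝ≥0) := by exact_mod_cast this
      have h3 : (s : ℝ) < ((N + 1 : ℕ) : ℝ) := by exact_mod_cast h2
      push_cast at h3
      exact h3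
    have hz : μH[(s : ℝ)] K = 0 := hausdorffMeasure_of_dimH_lt hs1
    set T : ℕ → Set (P N) := fun n => {v | v ∈ S ∧ ‖v‖ ≤ n + 1 ∧
      ENNReal.ofReal (1 / ((n : ℝ) + 1)) ≤ volume (hts a (K ∩ closedBall 0 ((n : ℝ) + 1)) v)}
      with hT
    have hST : S ⊆ ⋃ n, T n := by
      intro v hv
      have h1 : hts a K v ⊆ ⋃ n : ℕ, hts a (K ∩ closedBall 0 ((n : ℝ) + 1)) v := by
        intro t ht
        obtain ⟨n, hn⟩ := exists_nat_ge ‖(a v + t • v, t)‖
        refine mem_iUnion.2 ⟨n, ht, ?_⟩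
        rw [mem_closedBall_zero_iff]
        linarith
      have h2 : ∃ n : ℕ, volume (hts a (K ∩ closedBall 0 ((n : ℝ) + 1)) v) ≠ 0 := by
        by_contra hcon
        push Not at hcon
        exact hK v hv (measure_mono_null h1 (measure_iUnion_null hcon))
      obtain ⟨n₁, hn₁⟩ := h2
      set V := volume (hts a (K ∩ closedBall 0 ((n₁ : ℝ) + 1)) v) with hV
      obtain ⟨n₂, hn₂⟩ := ENNReal.exists_inv_nat_lt hn₁
      obtain ⟨n₃, hn₃⟩ := exists_nat_ge ‖v‖
      set n := max n₁ (max n₂ n₃) with hn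
      have hn1 : (n₁ : ℝ) ≤ n := by exact_mod_cast le_max_left _ _
      have hn2 : (n₂ : ℝ) ≤ n := by
        exact_mod_cast (le_max_left n₂ n₃).trans (le_max_right _ _)
      have hn3 : (n₃ : ℝ) ≤ n := by
        exact_mod_cast (le_max_right n₂ n₃).trans (le_max_right _ _)
      refine mem_iUnion.2 ⟨n, hv, by linarith, ?_⟩
      have h3 : ENNReal.ofReal (1 / ((n : ℝ) + 1)) ≤ (n₂ : ℝ≥0∞)⁻¹ := by
        rw [one_div, ENNReal.ofReal_inv_of_pos (by positivity)]
        apply ENNReal.inv_le_inv.2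
        rw [← ENNReal.ofReal_natCast]
        apply ENNReal.ofReal_le_ofReal
        linarith
      refine h3.trans (hn₂.le.trans (measure_mono ?_))
      intro t ht
      refine ⟨ht.1, closedBall_subset_closedBall (by linarith) ht.2⟩
    have h1 : ∃ n, volume (T n) ≠ 0 := by
      by_contra hcon
      push Not at hcon
      exact hS0 (measure_mono_null hST (measure_iUnion_null hcon))
    obtain ⟨n, hn⟩ := h1
    have hn1 : (1 : ℝ) ≤ (n : ℝ) + 1 := by
      have : (0 : ℝ) ≤ n := Nat.cast_nonneg n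
      linarith
    refine haus_aux hκ hn1 hD ha h (S := T n) (fun v hv => hSD hv.1)
      (fun v hv => by simpa using hv.2.1) (K := K ∩ closedBall 0 ((n : ℝ) + 1)) inter_subset_right
      (lam := 1 / ((n : ℝ) + 1)) (by positivity) (fun v hv => hv.2.2) hn hs0 hsN
      (measure_mono_null inter_subset_left hz)

theorem mink_prod {κ R : ℝ} (hκ : 1 ≤ κ) (hR : 1 ≤ R) (N : ℕ) : ∃ (c : ℝ) (p : ℕ), 0 < c ∧
    ∀ (D : Set (P N)) (a : P N → P N), MeasurableSet D → Measurable a → Tower κ N D a →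
    ∀ (S : Set (P N)) (K : Set (P N × ℝ)) (lam σ δ : ℝ), S ⊆ D → S ⊆ closedBall 0 R →
    K ⊆ closedBall 0 R → 0 ≤ lam → 0 ≤ σ → (∀ v ∈ S, ENNReal.ofReal lam ≤ volume (hts a K v)) →
    ENNReal.ofReal σ ≤ volume S → 0 < δ → δ ≤ 1 →
    ENNReal.ofReal (c * (lam * σ / (1 + Real.log (1 / δ))) ^ p) ≤ volume (thickening δ K) := by
  obtain ⟨c, p, hc, hp, hgood⟩ := tower_good κ hκ N (R + 1) (by linarith)
  have hl2 : 0 < 1 + Real.log 2 := by
    have := Real.log_pos (by norm_num : (1 : ℝ) < 2)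
    linarith
  refine ⟨c / (1 + Real.log 2) ^ p, p, by positivity, ?_⟩
  intro D a hD ha h S K lam σ δ hSD hSR hKR hlam hσ hht hσS hδ hδ1
  have hG := hgood N le_rfl D a h
  set E' := thickening (δ / 2) K with hE'
  have hE'm : MeasurableSet E' := isOpen_thickening.measurableSet
  have hE'R : E' ⊆ closedBall 0 (R + 1) := by
    intro x hx
    obtain ⟨y, hy, hxy⟩ := mem_thickening_iff.1 hx
    have h1 := hKR hy
    rw [mem_closedBall] at h1 ⊢
    have := dist_triangle x y 0
    linarith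
  set T : Set (P N) := {v | (v ∈ D ∧ v ∈ closedBall (0 : P N) R) ∧
    ENNReal.ofReal lam ≤ volume (hts a E' v)} with hT
  have hTm : MeasurableSet T := (hD.inter measurableSet_closedBall).inter
    (measurableSet_le measurable_const (meas_hts ha hE'm))
  have hST : S ⊆ T := fun v hv => ⟨⟨hSD hv, hSR hv⟩, (hht v hv).trans (measure_mono fun t ht =>
    self_subset_thickening (by positivity) K ht)⟩
  have h1 := hG (δ / 2) lam σ E' T (by positivity) (by linarith) hlam hσ hE'm hE'R hTm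
    (fun v hv => hv.1.1) (fun v hv => closedBall_subset_closedBall (by linarith) hv.1.2)
    (fun v hv => hv.2) (hσS.trans (measure_mono hST))
  have h2 : thickening (δ / 2) E' ⊆ thickening δ K := by
    have := thickening_thickening_subset (δ / 2) (δ / 2) K
    rwa [add_halves] at this
  refine le_trans (ENNReal.ofReal_le_ofReal ?_) (h1.trans (measure_mono h2))
  have h3 := log_scale hδ hδ1 (by norm_num : (1 : ℝ) ≤ 2)
  have h4 := one_le_l (δ := δ / 2) (by positivity) (by linarith)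
  have h5 := one_le_l hδ hδ1
  exact frac hc.le (by positivity) (by linarith) (by linarith) hl2 h3

/-! ### Euclidean space -/

/-- `(x, t)` as a point of Euclidean space -/
noncomputable def iot (N : ℕ) : (P N × ℝ) ≃L[ℝ] E (N + 1) :=
  LinearEquiv.toContinuousLinearEquiv
    { toFun := fun x => WithLp.toLp 2 (Fin.cons x.2 x.1 : Fin (N + 1) → ℝ)
      map_add' := fun x y => by
        ext i
        refine Fin.cases ?_ (fun i => ?_) i <;> simp
      map_smul' := fun r x => by
        ext i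
        refine Fin.cases ?_ (fun i => ?_) i <;> simp
      invFun := fun y => (fun i => y (Fin.succ i), y 0)
      left_inv := fun x => by
        ext <;> simp
      right_inv := fun y => by
        ext i
        refine Fin.cases ?_ (fun i => ?_) i <;> simp }

theorem iot_apply {N : ℕ} (x : P N × ℝ) :
    iot N x = WithLp.toLp 2 (Fin.cons x.2 x.1 : Fin (N + 1) → ℝ) := rfl

theorem hts_iot {N : ℕ} (a : P N → P N) (K : Set (E (N + 1))) (v : P N) :
    hts a (iot N ⁻¹' K) v = {t | pt (a v) v t ∈ K} := rfl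

theorem norm_le_iot {N : ℕ} (x : P N × ℝ) : ‖x‖ ≤ ‖iot N x‖ := by
  have h1 : ∀ i, ‖iot N x i‖ ≤ ‖iot N x‖ := fun i => PiLp.norm_apply_le _ i
  rw [Prod.norm_def]
  apply max_le
  · rw [pi_norm_le_iff_of_nonneg (norm_nonneg _)]
    intro i
    have := h1 (Fin.succ i)
    rwa [iot_apply] at this
  · have := h1 0
    rwa [iot_apply] at this

theorem dim_kak {κ : ℝ} (hκ : 1 ≤ κ) {N : ℕ} {D : Set (P N)} (hD : MeasurableSet D)
    {a : P N → P N} (ha : Measurable a) (h : Tower κ N D a) {S : Set (P N)} (hSD : S ⊆ D)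
    (hS0 : volume S ≠ 0) {K : Set (E (N + 1))}
    (hK : ∀ v ∈ S, volume {t : ℝ | pt (a v) v t ∈ K} ≠ 0) : dimH K = (N + 1 : ℕ) := by
  have h1 := dim_prod hκ hD ha h hSD hS0 (K := iot N ⁻¹' K) hK
  rwa [ContinuousLinearEquiv.dimH_preimage] at h1

theorem mink_kak {κ R : ℝ} (hκ : 1 ≤ κ) (hR : 1 ≤ R) (N : ℕ) : ∃ (c : ℝ) (p : ℕ), 0 < c ∧
    ∀ (D : Set (P N)) (a : P N → P N), MeasurableSet D → Measurable a → Tower κ N D a →
    ∀ (S : Set (P N)) (K : Set (E (N + 1))) (lam σ δ : ℝ), S ⊆ D → S ⊆ closedBall 0 R →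
    K ⊆ closedBall 0 R → 0 ≤ lam → 0 ≤ σ →
    (∀ v ∈ S, ENNReal.ofReal lam ≤ volume {t : ℝ | pt (a v) v t ∈ K}) →
    ENNReal.ofReal σ ≤ volume S → 0 < δ → δ ≤ 1 →
    ENNReal.ofReal (c * (lam * σ / (1 + Real.log (1 / δ))) ^ p) ≤ volume (thickening δ K) := by
  obtain ⟨c, p, hc, hmink⟩ := mink_prod hκ hR N
  obtain ⟨C, hC, hlip⟩ := lip_vol (E (N + 1)) (P N × ℝ) (by simp)
  set L : ℝ := ‖((iot N : (P N × ℝ) →L[ℝ] E (N + 1)))‖ + 1 with hL
  have hL1 : 1 ≤ L := by
    have := norm_nonneg ((iot N : (P N × ℝ) →L[ℝ] E (N + 1)))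
    linarith
  have hL0 : 0 < L := by linarith
  have hLx : ∀ x, ‖iot N x‖ ≤ L * ‖x‖ := by
    intro x
    have h1 := ((iot N : (P N × ℝ) →L[ℝ] E (N + 1))).le_opNorm x
    have h2 : ‖iot N x‖ ≤ ‖((iot N : (P N × ℝ) →L[ℝ] E (N + 1)))‖ * ‖x‖ := h1
    have h3 := norm_nonneg x
    rw [hL]
    linarith
  have hl2 : 0 < 1 + Real.log L := by
    have := Real.log_nonneg hL1
    linarith
  refine ⟨c / (1 + Real.log L) ^ p / C, p, by positivity, ?_⟩
  intro D a hD ha h S K lam σ δ hSD hSR hKR hlam hσ hht hσS hδ hδ1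
  have hδL : δ / L ≤ 1 := by
    rw [div_le_one hL0]; linarith
  have h1 := hmink D a hD ha h S (iot N ⁻¹' K) lam σ (δ / L) hSD hSR (by
    intro x hx
    have h2 := hKR hx
    rw [mem_closedBall_zero_iff] at h2 ⊢
    exact (norm_le_iot x).trans h2) hlam hσ hht hσS (by positivity) hδL
  have h2 : thickening (δ / L) (iot N ⁻¹' K) ⊆ (iot N).symm '' thickening δ K := by
    intro x hx
    obtain ⟨y, hy, hxy⟩ := mem_thickening_iff.1 hx
    refine ⟨iot N x, mem_thickening_iff.2 ⟨iot N y, hy, ?_⟩, by simp⟩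
    rw [dist_eq_norm, ← map_sub]
    have h3 := hLx (x - y)
    rw [dist_eq_norm, lt_div_iff₀ hL0] at hxy
    linarith
  have h3 : LipschitzOnWith 1 (iot N).symm (thickening δ K) := by
    apply LipschitzOnWith.of_dist_le_mul
    intro x _ y _
    rw [NNReal.coe_one, one_mul, dist_eq_norm, dist_eq_norm, ← map_sub]
    have := norm_le_iot ((iot N).symm (x - y))
    rwa [ContinuousLinearEquiv.apply_symm_apply] at this
  have h4 := hlip 1 _ _ h3
  rw [NNReal.coe_one, one_pow, mul_one] at h4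
  have h5 := h1.trans ((measure_mono h2).trans h4)
  have h6 : ENNReal.ofReal (c / (1 + Real.log L) ^ p * (lam * σ / (1 + Real.log (1 / δ))) ^ p) ≤
      ENNReal.ofReal C * volume (thickening δ K) := by
    refine le_trans (ENNReal.ofReal_le_ofReal ?_) h5
    have h3 := log_scale hδ hδ1 hL1
    have h4 := one_le_l (δ := δ / L) (by positivity) hδL
    have h5 := one_le_l hδ hδ1
    exact frac hc.le (by positivity) (by linarith) (by linarith) hl2 h3
  have h7 : c / (1 + Real.log L) ^ p / C * (lam * σ / (1 + Real.log (1 / δ))) ^ p =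
      C⁻¹ * (c / (1 + Real.log L) ^ p * (lam * σ / (1 + Real.log (1 / δ))) ^ p) := by ring
  rw [h7, ENNReal.ofReal_mul (by positivity), ENNReal.ofReal_inv_of_pos hC]
  calc (ENNReal.ofReal C)⁻¹ * ENNReal.ofReal (c / (1 + Real.log L) ^ p *
        (lam * σ / (1 + Real.log (1 / δ))) ^ p)
      ≤ (ENNReal.ofReal C)⁻¹ * (ENNReal.ofReal C * volume (thickening δ K)) := by gcongr
    _ = volume (thickening δ K) := by
        rw [← mul_assoc, ENNReal.inv_mul_cancel (by simpa using hC) ENNReal.ofReal_ne_top, one_mul]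

end Run7.h693.TP
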