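import Pool.Agent.Run7.h693.TP.Step

set_option autoImplicit false

/-!
# Transversal pencils: the lower bound in one member of the pencil, and the double integral
-/

open MeasureTheory Set Metric ENNReal NNReal

namespace Run7.h693.TP

/-- the set `E` in the coordinates given by `U` -/
def pull {N m k : ℕ} (U : (P m × P k) ≃L[ℝ] P N) (E : Set (P N × ℝ)) : Set (P m × (P k × ℝ)) :=
  {x | (U (x.1, x.2.1), x.2.2) ∈ E}

section low

variable {κ R : ℝ} {N m k : ℕ} {U : (P m × P k) ≃L[ℝ] P N} {A : P m → (P k × ℝ) →L[ℝ] P m}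

theorem pull_meas {E : Set (P N × ℝ)} (hE : MeasurableSet E) : MeasurableSet (pull U E) := by
  have h : Measurable fun x : P m × (P k × ℝ) => ((U (x.1, x.2.1), x.2.2) : P N × ℝ) := by
    have : Continuous fun x : P m × (P k × ℝ) => ((U (x.1, x.2.1), x.2.2) : P N × ℝ) := by
      fun_prop
    exact this.measurable
  exact h hE

theorem norm3 (ζ : P m) (y : P k) (t : ℝ) : ‖((ζ, (y, t)) : P m × (P k × ℝ))‖ =
    max ‖((ζ, y) : P m × P k)‖ |t| := by
  rw [Prod.norm_def, Prod.norm_def, Prod.norm_def, max_assoc]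
  rfl

theorem pull_sub (hκ : 1 ≤ κ) (hU' : ∀ p, ‖p‖ ≤ κ * ‖U p‖) {E : Set (P N × ℝ)}
    (hR : 0 ≤ R) (hE : E ⊆ closedBall 0 R) : pull U E ⊆ closedBall 0 (κ * R) := by
  rintro ⟨ζ, y, t⟩ hx
  have h1 := hE hx
  rw [mem_closedBall_zero_iff] at h1 ⊢
  rw [Prod.norm_def] at h1
  have h2 : ‖U (ζ, y)‖ ≤ R := (le_max_left _ _).trans h1
  have h3 : |t| ≤ R := (le_max_right ‖U (ζ, y)‖ ‖t‖).trans h1
  rw [norm3]
  apply max_le
  · exact (hU' _).trans (by gcongr)
  · nlinarith

theorem low {p : ℕ} {c' : ℝ} (hκ : 1 ≤ κ) (hR : 0 ≤ R) {a : P N → P N} {E : Set (P N × ℝ)}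
    (hE : MeasurableSet E) (hER : E ⊆ closedBall 0 R) (hU' : ∀ p, ‖p‖ ≤ κ * ‖U p‖)
    (hA0 : ∀ q, ‖A 0 q‖ ≤ κ * ‖q‖) (hA : ∀ b b' q, ‖A b q - A b' q‖ ≤ κ * ‖b - b'‖ * ‖q‖)
    {b : P m} (hb : ‖b‖ ≤ κ) (g : P m) (Db : Set (P k)) (ab : P k → P k)
    (hG : Good (κ * R) k Db ab c' p) {δ₁ d : ℝ} (hd : 0 < d) (hd1 : (2 + κ + κ ^ 2) * d ≤ δ₁)
    (hδ1 : δ₁ ≤ 1) {Tb : Set (P k)} (hTb : MeasurableSet Tb) (hTD : Tb ⊆ Db)
    (hTR : Tb ⊆ closedBall 0 (κ * R))
    (hlin : ∀ w ∈ Tb, a (U (A b (w, 1), w)) = U (A b (ab w, 0) + g, ab w)) {lam τ : ℝ}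
    (hlam0 : 0 ≤ lam) (hτ0 : 0 ≤ τ)
    (hlam : ∀ w ∈ Tb, ENNReal.ofReal lam ≤ volume (hts a E (U (A b (w, 1), w))))
    (hτ : ENNReal.ofReal τ ≤ volume Tb) :
    ENNReal.ofReal ((2 * d) ^ m) * ENNReal.ofReal (c' * (lam * τ / (1 + Real.log (1 / d))) ^ p) ≤
      volume (thickening δ₁ (pull U E) ∩ slab A (κ * R + 1) d b g) := by
  have hκ0 : 0 ≤ κ := by linarith
  have hd1' : d ≤ 1 := by nlinarith
  set E' := pull U E with hE'
  have hE'm : MeasurableSet E' := pull_meas hE
  have hE'R : E' ⊆ closedBall 0 (κ * R) := pull_sub hκ hU' hR hER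
  set Eb : Set (P k × ℝ) := {q | (A b q + g, q) ∈ E'} with hEb
  have hmeas : Measurable fun q => A b q + g := by
    have : Continuous fun q => A b q + g := by fun_prop
    exact this.measurable
  have hEbm : MeasurableSet Eb := (hmeas.prodMk measurable_id) hE'm
  have hEbR : Eb ⊆ closedBall 0 (κ * R) := by
    intro q hq
    have h1 := hE'R hq
    rw [mem_closedBall_zero_iff] at h1 ⊢
    exact (le_max_right ‖A b q + g‖ ‖q‖).trans h1
  have hhts : ∀ w ∈ Tb, ENNReal.ofReal lam ≤ volume (hts ab Eb w) := by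
    intro w hw
    have h1 : hts a E (U (A b (w, 1), w)) = hts ab Eb w := by
      ext t
      have h2 : a (U (A b (w, 1), w)) + t • U (A b (w, 1), w) =
          U (A b (ab w + t • w, t) + g, ab w + t • w) := by
        rw [hlin w hw, ← map_smul, ← map_add]
        congr 1
        have h3 : ((ab w + t • w, t) : P k × ℝ) = (ab w, 0) + t • (w, 1) := by
          ext <;> simp
        rw [h3, map_add, map_smul]
        ext <;> simp
        ring
      constructor
      · intro ht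
        have ht' : (a (U (A b (w, 1), w)) + t • U (A b (w, 1), w), t) ∈ E := ht
        rw [h2] at ht'
        exact ht'
      · intro ht
        change (a (U (A b (w, 1), w)) + t • U (A b (w, 1), w), t) ∈ E
        rw [h2]
        exact ht
    rw [← h1]
    exact hlam w hw
  have h1 := hG d lam τ Eb Tb hd hd1' hlam0 hτ0 hEbm hEbR hTb hTD hTR hhts hτ
  have h2 := fub (fun q => A b q + g) hmeas (thickening d Eb) isOpen_thickening.measurableSet hd.le
  calc ENNReal.ofReal ((2 * d) ^ m) *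
        ENNReal.ofReal (c' * (lam * τ / (1 + Real.log (1 / d))) ^ p)
      ≤ ENNReal.ofReal ((2 * d) ^ m) * volume (thickening d Eb) := by gcongr
    _ = volume {x : P m × (P k × ℝ) | x.2 ∈ thickening d Eb ∧ ‖x.1 - (A b x.2 + g)‖ ≤ d} := h2.symm
    _ ≤ volume (thickening δ₁ E' ∩ slab A (κ * R + 1) d b g) := by
      apply measure_mono
      rintro ⟨ζ, q⟩ ⟨h3, h4⟩
      change ‖ζ - (A b q + g)‖ ≤ d at h4
      obtain ⟨q0, hq0, h5⟩ := mem_thickening_iff.1 h3
      change dist q q0 < d at h5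
      have h6 : ((A b q0 + g, q0) : P m × (P k × ℝ)) ∈ E' := hq0
      have h7 : dist ((ζ, q) : P m × (P k × ℝ)) (A b q0 + g, q0) < δ₁ := by
        rw [Prod.dist_eq]
        have hpos : 0 ≤ (κ + κ ^ 2) * d := by positivity
        apply max_lt
        · change dist ζ (A b q0 + g) < δ₁
          rw [dist_eq_norm]
          have h8 : ‖A b (q - q0)‖ ≤ (κ + κ ^ 2) * ‖q - q0‖ := A_bound hκ0 hA0 hA hb _
          have h9 : ‖q - q0‖ ≤ d := by rw [← dist_eq_norm]; exact h5.le
          have h10 : ‖A b (q - q0)‖ ≤ (κ + κ ^ 2) * d := h8.trans (by gcongr)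
          calc ‖ζ - (A b q0 + g)‖ = ‖(ζ - (A b q + g)) + A b (q - q0)‖ := by
                congr 1
                rw [map_sub]; abel
            _ ≤ ‖ζ - (A b q + g)‖ + ‖A b (q - q0)‖ := norm_add_le _ _
            _ ≤ d + (κ + κ ^ 2) * d := by linarith
            _ < (2 + κ + κ ^ 2) * d := by linarith
            _ ≤ δ₁ := hd1
        · change dist q q0 < δ₁
          linarith
      refine ⟨mem_thickening_iff.2 ⟨_, h6, h7⟩, ?_, h4⟩
      change q ∈ closedBall 0 (κ * R + 1)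
      have h8 := hEbR hq0
      rw [mem_closedBall_zero_iff] at h8 ⊢
      have h9 : ‖q - q0‖ ≤ 1 := by rw [← dist_eq_norm]; linarith
      calc ‖q‖ = ‖(q - q0) + q0‖ := by rw [sub_add_cancel]
        _ ≤ ‖q - q0‖ + ‖q0‖ := norm_add_le _ _
        _ ≤ κ * R + 1 := by linarith

/-- The double integral. -/
theorem dbl (hm : 0 < m) (hκ : 0 < κ)
    (hT : ∀ b b', ‖b‖ ≤ κ → ‖b'‖ ≤ κ →
        ∀ ξ, ∃ q, A b q - A b' q = ‖b - b'‖ • ξ ∧ ‖q‖ ≤ κ * ‖ξ‖)
    {R' d : ℝ} (hd : 0 < d) {J : ℕ} (hJ : κ ≤ 2 ^ J * (d * m * κ)) {T : Set (P m × P k)}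
    (hTm : MeasurableSet T) {r : ℝ} (hr : 0 ≤ r) (hTr : ∀ x ∈ T, ‖x.1‖ ≤ κ ∧ ‖x.2‖ ≤ r)
    (g : P m × P k → P m) :
    ∫⁻ i in T, ∫⁻ j in T, volume (slab A R' d i.1 (g i) ∩ slab A R' d j.1 (g j)) ≤
      ENNReal.ofReal ((2 * κ) ^ m * (2 * r) ^ k) * (ENNReal.ofReal ((2 * r) ^ k) *
        (ENNReal.ofReal ((2 * d) ^ m) * volume (closedBall (0 : P k × ℝ) (R' + 1)) *
          ENNReal.ofReal ((J + 1) * (4 * (2 * d * m * κ)) ^ m))) := by
  have hm' : (0 : ℝ) < m := by exact_mod_cast hm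
  set s : ℝ := 2 * d * m * κ with hs
  have hs0 : 0 < s := by positivity
  set W := ENNReal.ofReal ((2 * d) ^ m) * volume (closedBall (0 : P k × ℝ) (R' + 1)) with hW
  have hinner : ∀ i ∈ T, ∫⁻ j in T, volume (slab A R' d i.1 (g i) ∩ slab A R' d j.1 (g j)) ≤
      ENNReal.ofReal ((2 * r) ^ k) * (W * ENNReal.ofReal ((J + 1) * (4 * s) ^ m)) := by
    intro i hi
    calc ∫⁻ j in T, volume (slab A R' d i.1 (g i) ∩ slab A R' d j.1 (g j))
        ≤ ∫⁻ j in T, W * ker s J i.1 j.1 := by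
          apply setLIntegral_mono' hTm
          intro j hj
          exact slab_inter hm hκ hT hd (hTr i hi).1 (hTr j hj).1 _ _ hJ
      _ ≤ ∫⁻ j in (univ : Set (P m)) ×ˢ closedBall (0 : P k) r, W * ker s J i.1 j.1 := by
          apply lintegral_mono_set
          intro j hj
          exact ⟨mem_univ _, by simpa using (hTr j hj).2⟩
      _ = _ := by
          have hk : Measurable fun j : P m × P k => W * ker s J i.1 j.1 :=
            ((measurable_ker s J i.1).comp measurable_fst).const_mul _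
          rw [Measure.volume_eq_prod, ← Measure.prod_restrict, Measure.restrict_univ,
            lintegral_prod _ hk.aemeasurable]
          have e1 : ∀ b : P m, ∫⁻ _w : P k in closedBall 0 r, W * ker s J i.1 b =
              ENNReal.ofReal ((2 * r) ^ k) * (W * ker s J i.1 b) := by
            intro b
            rw [setLIntegral_const, Real.volume_pi_closedBall _ hr, Fintype.card_fin, mul_comm]
          simp only [e1]
          rw [lintegral_const_mul _ ((measurable_ker s J i.1).const_mul _),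
            lintegral_const_mul _ (measurable_ker s J i.1), ker_int hs0]
  calc ∫⁻ i in T, ∫⁻ j in T, volume (slab A R' d i.1 (g i) ∩ slab A R' d j.1 (g j))
      ≤ ∫⁻ _i in T, ENNReal.ofReal ((2 * r) ^ k) *
          (W * ENNReal.ofReal ((J + 1) * (4 * s) ^ m)) := setLIntegral_mono' hTm hinner
    _ = ENNReal.ofReal ((2 * r) ^ k) * (W * ENNReal.ofReal ((J + 1) * (4 * s) ^ m)) *
          volume T := by rw [setLIntegral_const]
    _ ≤ ENNReal.ofReal ((2 * r) ^ k) * (W * ENNReal.ofReal ((J + 1) * (4 * s) ^ m)) *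
          ENNReal.ofReal ((2 * κ) ^ m * (2 * r) ^ k) := by
        gcongr
        calc volume T ≤ volume ((closedBall (0 : P m) κ) ×ˢ (closedBall (0 : P k) r)) := by
              apply measure_mono
              intro x hx
              exact ⟨by simpa using (hTr x hx).1, by simpa using (hTr x hx).2⟩
          _ = _ := by
              rw [Measure.volume_eq_prod, Measure.prod_prod, Real.volume_pi_closedBall _ hκ.le,
                Real.volume_pi_closedBall _ hr, Fintype.card_fin, Fintype.card_fin,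
                ENNReal.ofReal_mul (by positivity)]
    _ = _ := by ring

end low

end Run7.h693.TP
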