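import Mathlib

set_option autoImplicit false

/-!
# Transversal pencils: the arithmetic of the constants
-/

namespace Run7.h693.TP

theorem real_ineq {m k p : ℕ} {κ c' c1 c3 lam τ d l l' K2 V0 r R J : ℝ} (hm : 0 < (m : ℝ))
    (hκ : 0 < κ) (hc' : 0 < c') (hc1 : 0 < c1) (hc3 : 0 < c3) (hlam : 0 ≤ lam)
    (hlamR : lam ≤ 2 * R) (hτ : 0 ≤ τ) (hd : 0 < d) (hl : 1 ≤ l) (hl' : 1 ≤ l') (hK2 : 1 ≤ K2)
    (hll : l' ≤ K2 * l) (hV0 : 0 < V0) (hr : 0 < r) (hJ0 : 0 ≤ J) (hJ : J + 1 ≤ 2 * l') :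
    c' ^ 2 * (c3 / K2) ^ (2 * p) * c1 ^ 2 /
        (8 * ((2 * κ) ^ m * (2 * r) ^ k * (2 * r) ^ k * V0) * (4 * m * κ) ^ m * K2) *
      (lam * τ / l) ^ (2 * p + 2) ≤
    (2 * R) ^ 2 * (((2 * d) ^ m * (c' * (lam * (c3 * τ) / l') ^ p) * (c1 * τ / 2)) ^ 2 /
      ((2 * κ) ^ m * (2 * r) ^ k * ((2 * r) ^ k * ((2 * d) ^ m * V0 *
        ((J + 1) * (4 * (2 * d * m * κ)) ^ m))))) := by
  set B : ℝ := (2 * κ) ^ m * (2 * r) ^ k * (2 * r) ^ k * V0 with hB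
  have hB0 : 0 < B := by positivity
  set q : ℝ := (4 * m * κ) ^ m with hq
  have hq0 : 0 < q := by positivity
  have hl0 : 0 < l := by linarith
  have hl'0 : 0 < l' := by linarith
  have hK0 : 0 < K2 := by linarith
  have hJ1 : 0 < J + 1 := by linarith
  have e1 : ((2 * d) ^ m * (c' * (lam * (c3 * τ) / l') ^ p) * (c1 * τ / 2)) ^ 2 /
      ((2 * κ) ^ m * (2 * r) ^ k * ((2 * r) ^ k * ((2 * d) ^ m * V0 *
        ((J + 1) * (4 * (2 * d * m * κ)) ^ m)))) =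
      c' ^ 2 * (lam * (c3 * τ) / l') ^ (2 * p) * c1 ^ 2 * τ ^ 2 / (4 * B * q * (J + 1)) := by
    have h1 : (4 * (2 * d * m * κ)) ^ m = (2 * d) ^ m * q := by
      rw [hq, ← mul_pow]; congr 1; ring
    rw [h1, hB]
    have h2 : (2 * d) ^ m ≠ 0 := by positivity
    have h3 : (2 * κ) ^ m ≠ 0 := by positivity
    have h4 : (2 * r) ^ k ≠ 0 := by positivity
    rw [show (lam * (c3 * τ) / l') ^ (2 * p) = ((lam * (c3 * τ) / l') ^ p) ^ 2 by
      rw [← pow_mul, Nat.mul_comm]]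
    generalize (lam * (c3 * τ) / l') ^ p = z
    field_simp
    ring
  rw [e1]
  have h1 : (c3 / K2) ^ (2 * p) * (lam * τ / l) ^ (2 * p) ≤ (lam * (c3 * τ) / l') ^ (2 * p) := by
    rw [← mul_pow]
    gcongr
    calc c3 / K2 * (lam * τ / l) = lam * (c3 * τ) / (K2 * l) := by field_simp
      _ ≤ lam * (c3 * τ) / l' := by gcongr
  have h2 : (lam * τ / l) ^ 2 ≤ (2 * R) ^ 2 * τ ^ 2 / l := by
    rw [div_pow, mul_pow, div_le_div_iff₀ (by positivity) hl0]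
    have h3 : lam ^ 2 ≤ (2 * R) ^ 2 := by gcongr
    have h4 : l ≤ l ^ 2 := by nlinarith
    calc lam ^ 2 * τ ^ 2 * l ≤ (2 * R) ^ 2 * τ ^ 2 * l ^ 2 := by gcongr
      _ = _ := by ring
  have h3 : 4 * B * q * (J + 1) ≤ 8 * B * q * K2 * l := by
    have : J + 1 ≤ 2 * (K2 * l) := hJ.trans (by linarith)
    calc 4 * B * q * (J + 1) ≤ 4 * B * q * (2 * (K2 * l)) := by gcongr
      _ = _ := by ring
  calc c' ^ 2 * (c3 / K2) ^ (2 * p) * c1 ^ 2 / (8 * B * q * K2) * (lam * τ / l) ^ (2 * p + 2)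
      = c' ^ 2 * ((c3 / K2) ^ (2 * p) * (lam * τ / l) ^ (2 * p)) * c1 ^ 2 *
          (lam * τ / l) ^ 2 / (8 * B * q * K2) := by rw [pow_add]; ring
    _ ≤ c' ^ 2 * (lam * (c3 * τ) / l') ^ (2 * p) * c1 ^ 2 *
          ((2 * R) ^ 2 * τ ^ 2 / l) / (8 * B * q * K2) := by gcongr
    _ = (2 * R) ^ 2 * (c' ^ 2 * (lam * (c3 * τ) / l') ^ (2 * p) * c1 ^ 2 * τ ^ 2 /
          (8 * B * q * K2 * l)) := by field_simp
    _ ≤ _ := by gcongr

theorem one_le_l {δ : ℝ} (hδ : 0 < δ) (hδ1 : δ ≤ 1) : 1 ≤ 1 + Real.log (1 / δ) := by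
  have := Real.log_nonneg (x := 1 / δ) (by rw [le_div_iff₀ hδ]; linarith)
  linarith

theorem log_scale {δ K : ℝ} (hδ : 0 < δ) (hδ1 : δ ≤ 1) (hK : 1 ≤ K) :
    1 + Real.log (1 / (δ / K)) ≤ (1 + Real.log K) * (1 + Real.log (1 / δ)) := by
  have hK0 : 0 < K := by linarith
  have h1 : Real.log (1 / (δ / K)) = Real.log (1 / δ) + Real.log K := by
    rw [← Real.log_mul (by positivity) (by positivity)]
    congr 1
    field_simp
  have h2 := Real.log_nonneg hK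
  have h3 := one_le_l hδ hδ1
  have h4 : 0 ≤ Real.log (1 / δ) := by linarith
  rw [h1]
  nlinarith [mul_nonneg h2 h4]

theorem frac {c x l l' K : ℝ} {p : ℕ} (hc : 0 ≤ c) (hx : 0 ≤ x) (hl : 0 < l) (hl' : 0 < l')
    (hK : 0 < K) (h : l' ≤ K * l) : c / K ^ p * (x / l) ^ p ≤ c * (x / l') ^ p := by
  have h1 : c / K ^ p * (x / l) ^ p = c * (x / (K * l)) ^ p := by
    rw [div_pow, div_pow, mul_pow]
    field_simp
  rw [h1]
  gcongr

theorem scales {κ d m : ℝ} (hκ : 0 < κ) (hd : 0 < d) (hd1 : d ≤ 1) (hm : 1 ≤ m) :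
    ∃ J : ℕ, (J : ℝ) + 1 ≤ 2 * (1 + Real.log (1 / d)) ∧ κ ≤ 2 ^ J * (d * m * κ) := by
  have hlog2 : 0 < Real.log 2 := Real.log_pos (by norm_num)
  have h0 : 0 ≤ Real.log (1 / d) := by
    have := one_le_l hd hd1
    linarith
  refine ⟨⌈Real.log (1 / d) / Real.log 2⌉₊, ?_, ?_⟩
  · have h1 : (⌈Real.log (1 / d) / Real.log 2⌉₊ : ℝ) < Real.log (1 / d) / Real.log 2 + 1 :=
      Nat.ceil_lt_add_one (by positivity)
    have h2 : Real.log (1 / d) / Real.log 2 ≤ 2 * Real.log (1 / d) := by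
      rw [div_le_iff₀ hlog2]
      have : (1 : ℝ) / 2 ≤ Real.log 2 := by
        have := Real.log_two_gt_d9
        linarith
      nlinarith
    linarith
  · set J := ⌈Real.log (1 / d) / Real.log 2⌉₊
    have hJ1 : 1 / d ≤ 2 ^ J := by
      have h1 : Real.log (1 / d) / Real.log 2 ≤ J := Nat.le_ceil _
      rw [div_le_iff₀ hlog2] at h1
      have h2 : Real.log (1 / d) ≤ Real.log (2 ^ J) := by rw [Real.log_pow]; exact h1
      exact (Real.log_le_log_iff (by positivity) (by positivity)).1 h2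
    rw [div_le_iff₀ hd] at hJ1
    calc κ = 1 * 1 * κ := by ring
      _ ≤ (2 ^ J * d) * m * κ := by gcongr
      _ = _ := by ring

end Run7.h693.TP
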