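import Pool.Agent.Run7.h693.TP.Low
import Pool.Agent.Run7.h693.TP.Real

set_option autoImplicit false

/-!
# Transversal pencils: one pencil, and towers
-/

open MeasureTheory Set Metric ENNReal NNReal

namespace Run7.h693.TP

/-- the slope number `(b, w)` -/
noncomputable def slp {N m k : ℕ} (U : (P m × P k) ≃L[ℝ] P N) (A : P m → (P k × ℝ) →L[ℝ] P m)
    (x : P m × P k) : P N := U (A x.1 (x.2, 1), x.2)

section

variable {κ R : ℝ} {N m k : ℕ} {U : (P m × P k) ≃L[ℝ] P N} {A : P m → (P k × ℝ) →L[ℝ] P m}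

theorem slp_cont (hκ : 0 ≤ κ) (hA : ∀ b b' q, ‖A b q - A b' q‖ ≤ κ * ‖b - b'‖ * ‖q‖) :
    Continuous (slp U A) := by
  have h1 := A_cont hκ hA
  unfold slp
  have h2 : Continuous fun x : P m × P k => A x.1 (x.2, 1) :=
    (h1.comp continuous_fst).clm_apply (by fun_prop)
  fun_prop

theorem snd_le (hκ : 1 ≤ κ) (hU' : ∀ p, ‖p‖ ≤ κ * ‖U p‖) {x : P m × P k}
    (hx : slp U A x ∈ closedBall (0 : P N) R) : ‖x.2‖ ≤ κ * R := by
  rw [mem_closedBall_zero_iff] at hx
  have h1 := hU' (A x.1 (x.2, 1), x.2)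
  have h2 : ‖x.2‖ ≤ ‖((A x.1 (x.2, 1), x.2) : P m × P k)‖ := by
    rw [Prod.norm_def]; exact le_max_right _ _
  refine h2.trans (h1.trans ?_)
  gcongr
  exact hx

theorem slp_lip (hκ : 1 ≤ κ) (hR : 0 ≤ R) (hU : ∀ p, ‖U p‖ ≤ κ * ‖p‖)
    (hA0 : ∀ q, ‖A 0 q‖ ≤ κ * ‖q‖)
    (hA : ∀ b b' q, ‖A b q - A b' q‖ ≤ κ * ‖b - b'‖ * ‖q‖) (T : Set (P m × P k))
    (hT : ∀ x ∈ T, ‖x.1‖ ≤ κ ∧ ‖x.2‖ ≤ κ * R) :
    LipschitzOnWith (κ * (κ * (κ * R + 1) + (κ + κ ^ 2) + 1)).toNNReal (slp U A) T := by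
  have hκ0 : 0 ≤ κ := by linarith
  apply LipschitzOnWith.of_dist_le_mul
  intro x hx y hy
  rw [Real.coe_toNNReal _ (by positivity), dist_eq_norm]
  set D := dist x y with hD
  have h1 : ‖x.1 - y.1‖ ≤ D := by
    rw [← dist_eq_norm]; exact le_max_left _ _
  have h2 : ‖x.2 - y.2‖ ≤ D := by
    rw [← dist_eq_norm]; exact le_max_right _ _
  have hD0 : 0 ≤ D := dist_nonneg
  have h3 : slp U A x - slp U A y =
      U (A x.1 (x.2, 1) - A y.1 (y.2, 1), x.2 - y.2) := by
    unfold slp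
    rw [← map_sub]; rfl
  rw [h3]
  refine (hU _).trans ?_
  rw [mul_assoc]
  apply mul_le_mul_of_nonneg_left _ hκ0
  rw [Prod.norm_def]
  apply max_le
  · change ‖A x.1 (x.2, 1) - A y.1 (y.2, 1)‖ ≤ _
    have h4 : A x.1 (x.2, 1) - A y.1 (y.2, 1) =
        (A x.1 (x.2, 1) - A y.1 (x.2, 1)) + A y.1 (x.2 - y.2, 0) := by
      have : ((x.2 - y.2, 0) : P k × ℝ) = (x.2, 1) - (y.2, 1) := by ext <;> simp
      rw [this, map_sub]; abel
    rw [h4]
    have h5 := hA x.1 y.1 (x.2, 1)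
    have h6 := A_bound hκ0 hA0 hA (hT y hy).1 (x.2 - y.2, 0)
    have h7 : ‖((x.2, 1) : P k × ℝ)‖ ≤ κ * R + 1 := by
      rw [Prod.norm_def]
      apply max_le
      · have := (hT x hx).2
        change ‖x.2‖ ≤ _
        linarith
      · change ‖(1 : ℝ)‖ ≤ _
        rw [norm_one]
        have : 0 ≤ κ * R := by positivity
        linarith
    have h8 : ‖((x.2 - y.2, 0) : P k × ℝ)‖ ≤ D := by
      rw [Prod.norm_def]
      apply max_le h2
      change ‖(0 : ℝ)‖ ≤ D
      rw [norm_zero]; exact hD0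
    calc ‖(A x.1 (x.2, 1) - A y.1 (x.2, 1)) + A y.1 (x.2 - y.2, 0)‖
        ≤ κ * ‖x.1 - y.1‖ * ‖((x.2, 1) : P k × ℝ)‖ +
          (κ + κ ^ 2) * ‖((x.2 - y.2, 0) : P k × ℝ)‖ := (norm_add_le _ _).trans (by linarith)
      _ ≤ κ * D * (κ * R + 1) + (κ + κ ^ 2) * D := by gcongr
      _ ≤ _ := by nlinarith
  · refine h2.trans ?_
    have : 0 ≤ (κ * (κ * R + 1) + (κ + κ ^ 2)) * D := by positivity
    change D ≤ _
    nlinarith

/-- the set `E` in the coordinates given by `U` is not larger -/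
theorem thick_lip (hκ : 1 ≤ κ) (hU : ∀ p, ‖U p‖ ≤ κ * ‖p‖) (E : Set (P N × ℝ)) {δ : ℝ} :
    thickening (δ / κ) (pull U E) ⊆
      (fun x : P N × ℝ => (((U.symm x.1).1, ((U.symm x.1).2, x.2)) : P m × (P k × ℝ))) ''
        thickening δ E := by
  have hκ0 : 0 < κ := by linarith
  rintro ⟨ζ, y, t⟩ hx
  obtain ⟨⟨ζ0, y0, t0⟩, h1, h2⟩ := mem_thickening_iff.1 hx
  refine ⟨(U (ζ, y), t), mem_thickening_iff.2 ⟨(U (ζ0, y0), t0), h1, ?_⟩, ?_⟩
  · have h3 : dist (U (ζ, y)) (U (ζ0, y0)) ≤ κ * dist ((ζ, y) : P m × P k) (ζ0, y0) := by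
      rw [dist_eq_norm, dist_eq_norm, ← map_sub]
      exact hU _
    have h4 : dist ((ζ, (y, t)) : P m × (P k × ℝ)) (ζ0, (y0, t0)) =
        max (dist ((ζ, y) : P m × P k) (ζ0, y0)) (dist t t0) := by
      rw [Prod.dist_eq, Prod.dist_eq, Prod.dist_eq, max_assoc]
    change dist ((ζ, (y, t)) : P m × (P k × ℝ)) (ζ0, (y0, t0)) < δ / κ at h2
    rw [h4, max_lt_iff, lt_div_iff₀ hκ0, lt_div_iff₀ hκ0] at h2
    rw [Prod.dist_eq]
    apply max_lt
    · change dist (U (ζ, y)) (U (ζ0, y0)) < δ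
      linarith [h2.1]
    · change dist t t0 < δ
      nlinarith [h2.2, dist_nonneg (x := t) (y := t0)]
  · simp

theorem pull_lip (hκ : 1 ≤ κ) (hU' : ∀ p, ‖p‖ ≤ κ * ‖U p‖) (S : Set (P N × ℝ)) :
    LipschitzOnWith κ.toNNReal
      (fun x : P N × ℝ => (((U.symm x.1).1, ((U.symm x.1).2, x.2)) : P m × (P k × ℝ))) S := by
  have hκ0 : 0 ≤ κ := by linarith
  apply LipschitzOnWith.of_dist_le_mul
  intro x _ y _
  rw [Real.coe_toNNReal _ hκ0]
  have h4 : dist (((U.symm x.1).1, ((U.symm x.1).2, x.2)) : P m × (P k × ℝ))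
      ((U.symm y.1).1, ((U.symm y.1).2, y.2)) =
        max (dist (U.symm x.1) (U.symm y.1)) (dist x.2 y.2) := by
    rw [Prod.dist_eq, Prod.dist_eq, Prod.dist_eq, max_assoc]
  have h6 : dist x y = max (dist x.1 y.1) (dist x.2 y.2) := Prod.dist_eq
  rw [h4, h6]
  apply max_le
  · have h5 := hU' (U.symm x.1 - U.symm y.1)
    rw [map_sub, ContinuousLinearEquiv.apply_symm_apply, ContinuousLinearEquiv.apply_symm_apply]
      at h5
    rw [dist_eq_norm (U.symm x.1)]
    refine h5.trans ?_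
    rw [← dist_eq_norm]
    gcongr
    exact le_max_left _ _
  · calc dist x.2 y.2 ≤ max (dist x.1 y.1) (dist x.2 y.2) := le_max_right _ _
      _ ≤ κ * max (dist x.1 y.1) (dist x.2 y.2) := by
        have : 0 ≤ max (dist x.1 y.1) (dist x.2 y.2) := le_max_of_le_left dist_nonneg
        nlinarith

end

/-- **One pencil.** -/
theorem step (m k : ℕ) (hm : 0 < m) (κ R : ℝ) (hκ : 1 ≤ κ) (hR : 1 ≤ R) (c' : ℝ) (hc' : 0 < c')
    (p : ℕ) : ∃ c : ℝ, 0 < c ∧ ∀ (N : ℕ) (D : Set (P N)) (a : P N → P N), Measurable a →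
    ∀ (U : (P m × P k) ≃L[ℝ] P N), (∀ p, ‖U p‖ ≤ κ * ‖p‖) → (∀ p, ‖p‖ ≤ κ * ‖U p‖) →
    ∀ (A : P m → (P k × ℝ) →L[ℝ] P m), (∀ q, ‖A 0 q‖ ≤ κ * ‖q‖) →
    (∀ b b' q, ‖A b q - A b' q‖ ≤ κ * ‖b - b'‖ * ‖q‖) →
    (∀ b b', ‖b‖ ≤ κ → ‖b'‖ ≤ κ → ∀ ξ, ∃ q, A b q - A b' q = ‖b - b'‖ • ξ ∧ ‖q‖ ≤ κ * ‖ξ‖) →
    (∀ v ∈ D, ∃ b w, ‖b‖ ≤ κ ∧ v = U (A b (w, 1), w)) →
    ∀ (M : ℕ), (M : ℝ) ≤ κ → ∀ (γ : P m → Fin M → P m), (∀ b, Function.Injective (γ b)) →
    ∀ (D' : P m → Fin M → Set (P k)) (a' : P m → Fin M → P k → P k),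
    (∀ b w, ‖b‖ ≤ κ → U (A b (w, 1), w) ∈ D → ∃ j, w ∈ D' b j ∧
        a (U (A b (w, 1), w)) = U (A b (a' b j w, 0) + γ b j, a' b j w)) →
    (∀ b j, ‖b‖ ≤ κ → Good (κ * R) k (D' b j) (a' b j) c' p) → Good R N D a c (2 * p + 2) := by
  have hκ0 : 0 < κ := by linarith
  have hR0 : 0 < R := by linarith
  have hm' : (0 : ℝ) < m := by exact_mod_cast hm
  obtain ⟨C1, hC1, hlip1⟩ := lip_vol (P m × P k) (P (m + k)) (by simp)
  obtain ⟨C2, hC2, hlip2⟩ := lip_vol (P (m + k) × ℝ) (P m × (P k × ℝ)) (by simp; ring)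
  set K1 : ℝ := κ * (κ * (κ * R + 1) + (κ + κ ^ 2) + 1) with hK1
  have hK10 : 0 < K1 := by positivity
  set c1 : ℝ := (C1 * K1 ^ (m + k))⁻¹ with hc1
  have hc10 : 0 < c1 := by positivity
  set c3 : ℝ := c1 / (2 * κ * (2 * κ) ^ m) with hc3
  have hc30 : 0 < c3 := by positivity
  set K0 : ℝ := κ * (2 + κ + κ ^ 2) with hK0
  have hK01 : 1 ≤ K0 := by
    have : 1 ≤ 2 + κ + κ ^ 2 := by nlinarith
    nlinarith
  set K2 : ℝ := 1 + Real.log K0 with hK2
  have hK21 : 1 ≤ K2 := by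
    have := Real.log_nonneg hK01
    linarith
  set r : ℝ := κ * R with hr
  have hr0 : 0 < r := by positivity
  set V0 : ℝ := (2 * (r + 1 + 1)) ^ (k + 1) with hV0
  have hV00 : 0 < V0 := by positivity
  set X : ℝ := c' ^ 2 * (c3 / K2) ^ (2 * p) * c1 ^ 2 /
        (8 * ((2 * κ) ^ m * (2 * r) ^ k * (2 * r) ^ k * V0) * (4 * m * κ) ^ m * K2) with hX
  have hX0 : 0 < X := by positivity
  set Y : ℝ := (2 * R) ^ 2 * (C2 * κ ^ (m + k + 1)) with hY
  have hY0 : 0 < Y := by positivity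
  refine ⟨X / Y, by positivity, ?_⟩
  intro N D a ha U hU hU' A hA0 hA hT hcov Mt hMt γ hγ D' a' hlin hG
  have hN : N = m + k := by
    have := LinearEquiv.finrank_eq U.toLinearEquiv
    simpa using this.symm
  subst hN
  intro δ lam τ E T hδ hδ1 hlam hτ hE hER hTm hTD hTR hht hτT
  -- trivial case
  rcases eq_or_lt_of_le hτ with hτ0 | hτ0
  · rw [← hτ0]
    simp
  have hTne : T.Nonempty := by
    by_contra h
    rw [not_nonempty_iff_eq_empty] at h
    rw [h, measure_empty] at hτT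
    have := ENNReal.ofReal_pos.2 hτ0
    exact absurd hτT (not_le.2 this)
  have hlamR : lam ≤ 2 * R := by
    obtain ⟨v, hv⟩ := hTne
    have h1 := hht v hv
    have h2 : hts a E v ⊆ Icc (-R) R := by
      intro t ht
      have h3 := hER ht
      rw [mem_closedBall_zero_iff, Prod.norm_def] at h3
      have h4 : |t| ≤ R := (le_max_right ‖a v + t • v‖ ‖t‖).trans h3
      exact abs_le.1 h4
    have h3 := h1.trans (measure_mono h2)
    rw [Real.volume_Icc, ENNReal.ofReal_le_ofReal_iff (by linarith)] at h3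
    linarith
  -- the slopes
  set T' : Set (P m × P k) := {x | ‖x.1‖ ≤ κ ∧ slp U A x ∈ T} with hT'
  have hslp := slp_cont (U := U) hκ0.le hA
  have hT'm : MeasurableSet T' := by
    apply MeasurableSet.inter
    · exact measurableSet_le measurable_fst.norm measurable_const
    · exact hslp.measurable hTm
  have hT'r : ∀ x ∈ T', ‖x.1‖ ≤ κ ∧ ‖x.2‖ ≤ r := by
    intro x hx
    exact ⟨hx.1, snd_le hκ hU' (hTR hx.2)⟩
  have hTT' : T ⊆ slp U A '' T' := by
    intro v hv
    obtain ⟨b, w, hb, hvb⟩ := hcov v (hTD hv)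
    refine ⟨(b, w), ⟨hb, ?_⟩, hvb.symm⟩
    change U (A b (w, 1), w) ∈ T
    rw [← hvb]; exact hv
  have hvT' : ENNReal.ofReal (c1 * τ) ≤ volume T' := by
    have h1 := hlip1 _ _ T' (slp_lip hκ hR0.le hU hA0 hA T' hT'r)
    have h2 : ENNReal.ofReal τ ≤ ENNReal.ofReal (C1 * K1 ^ (m + k)) * volume T' := by
      refine hτT.trans ((measure_mono hTT').trans (h1.trans ?_))
      rw [Real.coe_toNNReal _ hK10.le]
      simp
    have h3 : 0 < C1 * K1 ^ (m + k) := by positivity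
    rw [hc1, ENNReal.ofReal_mul (by positivity), ENNReal.ofReal_inv_of_pos h3]
    calc (ENNReal.ofReal (C1 * K1 ^ (m + k)))⁻¹ * ENNReal.ofReal τ
        ≤ (ENNReal.ofReal (C1 * K1 ^ (m + k)))⁻¹ *
          (ENNReal.ofReal (C1 * K1 ^ (m + k)) * volume T') := by gcongr
      _ = volume T' := by
        rw [← mul_assoc, ENNReal.inv_mul_cancel (by simpa using h3) ENNReal.ofReal_ne_top, one_mul]
  set g : P m × P k → P m := fun x => (U.symm (a (slp U A x))).1 -
    A x.1 ((U.symm (a (slp U A x))).2, 0) with hg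
  have hAc := A_cont hκ0.le hA
  have hgm : Measurable g := by
    have h1 : Measurable fun x : P m × P k => U.symm (a (slp U A x)) :=
      U.symm.continuous.measurable.comp (ha.comp hslp.measurable)
    have h2 : Measurable fun x : P m × P k => A x.1 ((U.symm (a (slp U A x))).2, 0) := by
      have h3 : Continuous fun z : P m × (P k × ℝ) => A z.1 z.2 :=
        (hAc.comp continuous_fst).clm_apply continuous_snd
      exact h3.measurable.comp (measurable_fst.prodMk (h1.snd.prodMk measurable_const))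
    exact h1.fst.sub h2
  have hgγ : ∀ x ∈ T', ∃ j, x.2 ∈ D' x.1 j ∧
      a (slp U A x) = U (A x.1 (a' x.1 j x.2, 0) + γ x.1 j, a' x.1 j x.2) ∧ g x = γ x.1 j := by
    intro x hx
    obtain ⟨j, h0, h1⟩ := hlin x.1 x.2 hx.1 (hTD hx.2)
    have h2 : a (slp U A x) = U (A x.1 (a' x.1 j x.2, 0) + γ x.1 j, a' x.1 j x.2) := h1
    refine ⟨j, h0, h2, ?_⟩
    simp only [hg, h2, ContinuousLinearEquiv.symm_apply_apply]
    abel
  -- many slopes in one member of the pencil
  set T1 : Set (P m × P k) := {x | x ∈ T' ∧ ENNReal.ofReal (c3 * τ) ≤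
    volume {w : P k | (x.1, w) ∈ T' ∧ g (x.1, w) = g x}} with hT1
  have hT1m : MeasurableSet T1 := by
    apply MeasurableSet.inter hT'm
    have h1 : MeasurableSet {z : (P m × P k) × P k | (z.1.1, z.2) ∈ T' ∧
        g (z.1.1, z.2) = g z.1} := by
      have h2 : Measurable fun z : (P m × P k) × P k => ((z.1.1, z.2) : P m × P k) :=
        (measurable_fst.comp measurable_fst).prodMk measurable_snd
      exact (h2 hT'm).inter (measurableSet_eq_fun (hgm.comp h2) (hgm.comp measurable_fst))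
    exact measurableSet_le measurable_const (measurable_measure_prodMk_left h1)
  have hT1r : ∀ x ∈ T1, ‖x.1‖ ≤ κ ∧ ‖x.2‖ ≤ r := fun x hx => hT'r x hx.1
  have hvT1 : ENNReal.ofReal (c1 * τ / 2) ≤ volume T1 := by
    have h1 : volume (T' \ T1) ≤ ENNReal.ofReal (c1 * τ / 2) := by
      rw [Measure.volume_eq_prod, Measure.prod_apply (hT'm.diff hT1m)]
      have h2 : ∀ b : P m, volume (Prod.mk b ⁻¹' (T' \ T1)) ≤
          (closedBall (0 : P m) κ).indicator (fun _ => ENNReal.ofReal (κ * (c3 * τ))) b := by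
        intro b
        by_cases hne : (Prod.mk b ⁻¹' (T' \ T1)).Nonempty
        · obtain ⟨w, hw⟩ := hne
          have hw1 : (b, w) ∈ T' := hw.1
          rw [indicator_of_mem (by simpa using hw1.1)]
          have h3 : Prod.mk b ⁻¹' (T' \ T1) ⊆ ⋃ j : Fin Mt, {w : P k | (b, w) ∈ T' \ T1 ∧
              g (b, w) = γ b j} := by
            intro w' hw'
            obtain ⟨j, -, -, hj⟩ := hgγ (b, w') hw'.1
            exact mem_iUnion.2 ⟨j, hw', hj⟩
          have h4 : ∀ j : Fin Mt, volume {w : P k | (b, w) ∈ T' \ T1 ∧ g (b, w) = γ b j} ≤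
              ENNReal.ofReal (c3 * τ) := by
            intro j
            by_cases hne' : {w : P k | (b, w) ∈ T' \ T1 ∧ g (b, w) = γ b j}.Nonempty
            · obtain ⟨w0, hw0, hw0j⟩ := hne'
              have hw2 : ¬ ENNReal.ofReal (c3 * τ) ≤
                  volume {w : P k | (b, w) ∈ T' ∧ g (b, w) = g (b, w0)} :=
                fun h => hw0.2 ⟨hw0.1, h⟩
              refine le_trans ?_ (not_le.1 hw2).le
              apply measure_mono
              rintro w' ⟨hw', hw'j⟩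
              exact ⟨hw'.1, by rw [hw'j, hw0j]⟩
            · rw [not_nonempty_iff_eq_empty] at hne'
              rw [hne', measure_empty]
              exact zero_le
          calc volume (Prod.mk b ⁻¹' (T' \ T1))
              ≤ ∑ j : Fin Mt, volume {w : P k | (b, w) ∈ T' \ T1 ∧ g (b, w) = γ b j} :=
                (measure_mono h3).trans (measure_iUnion_fintype_le _ _)
            _ ≤ ∑ _j : Fin Mt, ENNReal.ofReal (c3 * τ) := Finset.sum_le_sum fun j _ => h4 j
            _ = ENNReal.ofReal (Mt * (c3 * τ)) := by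
                rw [Finset.sum_const, Finset.card_univ, Fintype.card_fin, nsmul_eq_mul,
                  ENNReal.ofReal_mul (Nat.cast_nonneg _), ENNReal.ofReal_natCast]
            _ ≤ ENNReal.ofReal (κ * (c3 * τ)) := by
                apply ENNReal.ofReal_le_ofReal
                gcongr
        · rw [not_nonempty_iff_eq_empty] at hne
          rw [hne, measure_empty]
          exact zero_le
      refine (lintegral_mono h2).trans ?_
      rw [lintegral_indicator measurableSet_closedBall, setLIntegral_const,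
        Real.volume_pi_closedBall _ hκ0.le, Fintype.card_fin, ← ENNReal.ofReal_mul (by positivity)]
      apply ENNReal.ofReal_le_ofReal
      rw [hc3]
      have : (2 * κ) ^ m ≠ 0 := by positivity
      apply le_of_eq
      field_simp
    have h2 : volume T' ≤ volume T1 + volume (T' \ T1) := by
      calc volume T' ≤ volume (T1 ∪ (T' \ T1)) := by
            apply measure_mono
            intro x hx
            by_cases h : x ∈ T1
            · exact Or.inl h
            · exact Or.inr ⟨hx, h⟩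
        _ ≤ _ := measure_union_le _ _
    have h3 : ENNReal.ofReal (c1 * τ) ≤ volume T1 + ENNReal.ofReal (c1 * τ / 2) :=
      hvT'.trans (h2.trans (by gcongr))
    have h4 : ENNReal.ofReal (c1 * τ) = ENNReal.ofReal (c1 * τ / 2) + ENNReal.ofReal (c1 * τ / 2) := by
      rw [← ENNReal.ofReal_add (by positivity) (by positivity)]
      congr 1; ring
    rw [h4] at h3
    exact (ENNReal.add_le_add_iff_right ENNReal.ofReal_ne_top).1 h3
  -- scales
  set δ₁ : ℝ := δ / κ with hδ₁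
  have hδ₁1 : δ₁ ≤ 1 := by
    rw [hδ₁, div_le_one hκ0]; linarith
  set d : ℝ := δ / K0 with hd
  have hK00 : 0 < K0 := by linarith
  have hd0 : 0 < d := by positivity
  have hd1 : d ≤ 1 := by
    rw [hd, div_le_one hK00]; linarith
  have hdδ : (2 + κ + κ ^ 2) * d ≤ δ₁ := by
    rw [hd, hδ₁, hK0]
    apply le_of_eq
    have : (2 + κ + κ ^ 2) ≠ 0 := by positivity
    field_simp
  set l : ℝ := 1 + Real.log (1 / δ) with hl
  set l' : ℝ := 1 + Real.log (1 / d) with hl'
  have hl1 : 1 ≤ l := one_le_l hδ hδ1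
  have hl'1 : 1 ≤ l' := one_le_l hd0 hd1
  have hll : l' ≤ K2 * l := log_scale hδ hδ1 hK01
  have hm1 : (1 : ℝ) ≤ m := by exact_mod_cast hm
  obtain ⟨J, hJ2, hJ3⟩ := scales hκ0 hd0 hd1 hm1
  -- the slabs
  set F : Set (P m × (P k × ℝ)) := thickening δ₁ (pull U E) with hF
  have hFm : MeasurableSet F := isOpen_thickening.measurableSet
  set G : Set ((P m × P k) × (P m × (P k × ℝ))) :=
    {z | z.2 ∈ slab A (r + 1) d z.1.1 (g z.1)} with hGdef
  have hGm : MeasurableSet G := by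
    apply MeasurableSet.inter
    · exact (measurable_snd.comp measurable_snd) measurableSet_closedBall
    · have h3 : Continuous fun z : P m × (P k × ℝ) => A z.1 z.2 :=
        (hAc.comp continuous_fst).clm_apply continuous_snd
      have h4 : Measurable fun z : (P m × P k) × (P m × (P k × ℝ)) => A z.1.1 z.2.2 :=
        h3.measurable.comp ((measurable_fst.comp measurable_fst).prodMk
          (measurable_snd.comp measurable_snd))
      have h5 : Measurable fun z : (P m × P k) × (P m × (P k × ℝ)) =>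
          z.2.1 - (A z.1.1 z.2.2 + g z.1) :=
        (measurable_fst.comp measurable_snd).sub (h4.add (hgm.comp measurable_fst))
      have h6 : MeasurableSet {z : (P m × P k) × (P m × (P k × ℝ)) |
          ‖z.2.1 - (A z.1.1 z.2.2 + g z.1)‖ ≤ d} := measurableSet_le h5.norm measurable_const
      exact h6
  have hcs := cs (volume.restrict T1) (volume : Measure (P m × (P k × ℝ))) G hGm F hFm
  -- the lower bound
  set M : ℝ := (2 * d) ^ m * (c' * (lam * (c3 * τ) / l') ^ p) with hM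
  have hM0 : 0 ≤ M := by positivity
  have hlow : ∀ i ∈ T1, ENNReal.ofReal M ≤ volume (F ∩ {x | (i, x) ∈ G}) := by
    rintro ⟨b, w⟩ ⟨h1, h2⟩
    have hb : ‖b‖ ≤ κ := h1.1
    obtain ⟨j, -, -, hj⟩ := hgγ (b, w) h1
    have hj' : g (b, w) = γ b j := hj
    have h3 : {x | (((b, w) : P m × P k), x) ∈ G} = slab A (r + 1) d b (γ b j) := by
      ext x
      change x ∈ slab A (r + 1) d b (g (b, w)) ↔ _
      rw [hj']
    rw [h3]
    have hTb : MeasurableSet {w' : P k | (b, w') ∈ T' ∧ g (b, w') = g (b, w)} := by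
      have h5 : Measurable fun w' : P k => ((b, w') : P m × P k) := measurable_prodMk_left
      exact (h5 hT'm).inter (measurableSet_eq_fun (hgm.comp h5) measurable_const)
    have hcl : ∀ w' ∈ {w' : P k | (b, w') ∈ T' ∧ g (b, w') = g (b, w)}, w' ∈ D' b j ∧
        a (U (A b (w', 1), w')) = U (A b (a' b j w', 0) + γ b j, a' b j w') := by
      rintro w' ⟨hw', hgw'⟩
      obtain ⟨j', h5, h6, h7⟩ := hgγ (b, w') hw'
      have h8 : γ b j' = γ b j := by
        rw [← hj', ← hgw']; exact h7.symm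
      have h9 : j' = j := hγ b h8
      subst h9
      exact ⟨h5, h6⟩
    have h4 := low (p := p) (c' := c') hκ hR0.le hE hER hU' hA0 hA hb (γ b j) (D' b j) (a' b j)
      (hG b j hb) hd0 hdδ hδ₁1 hTb
      (fun w' hw' => (hcl w' hw').1)
      (fun w' hw' => by simpa using (hT'r _ hw'.1).2)
      (fun w' hw' => (hcl w' hw').2) (lam := lam) (τ := c3 * τ) hlam
      (by positivity) (fun w' hw' => hht _ hw'.1.2) h2
    rw [← ENNReal.ofReal_mul (by positivity)] at h4
    exact h4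
  have hI : ENNReal.ofReal (M * (c1 * τ / 2)) ≤
      ∫⁻ i in T1, volume (F ∩ {x | (i, x) ∈ G}) := by
    calc ENNReal.ofReal (M * (c1 * τ / 2)) = ENNReal.ofReal M * ENNReal.ofReal (c1 * τ / 2) :=
          ENNReal.ofReal_mul hM0
      _ ≤ ENNReal.ofReal M * volume T1 := by gcongr
      _ = ∫⁻ _i in T1, ENNReal.ofReal M := by rw [setLIntegral_const]
      _ ≤ _ := setLIntegral_mono' hT1m hlow
  -- the upper bound
  have hup := dbl hm hκ0 hT (R' := r + 1) hd0 hJ3 hT1m hr0.le hT1r g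
  have hVr : volume (closedBall (0 : P k × ℝ) (r + 1 + 1)) = ENNReal.ofReal V0 := by
    have h1 : closedBall (0 : P k × ℝ) (r + 1 + 1) =
        closedBall (0 : P k) (r + 1 + 1) ×ˢ closedBall (0 : ℝ) (r + 1 + 1) := by
      rw [closedBall_prod_same]; rfl
    rw [h1, Measure.volume_eq_prod, Measure.prod_prod,
      Real.volume_pi_closedBall _ (by positivity), Fintype.card_fin, Real.volume_closedBall,
      ← ENNReal.ofReal_mul (by positivity), hV0, pow_succ]
  set W : ℝ := (2 * κ) ^ m * (2 * r) ^ k * ((2 * r) ^ k * ((2 * d) ^ m * V0 *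
        ((J + 1) * (4 * (2 * d * m * κ)) ^ m))) with hW
  have hW0 : 0 < W := by positivity
  have hup' : ∫⁻ i in T1, ∫⁻ j in T1, volume {x | (i, x) ∈ G ∧ (j, x) ∈ G} ≤
      ENNReal.ofReal W := by
    refine le_trans (le_of_eq rfl) (hup.trans (le_of_eq ?_))
    rw [hVr, hW, ← ENNReal.ofReal_mul (by positivity), ← ENNReal.ofReal_mul (by positivity),
      ← ENNReal.ofReal_mul (by positivity), ← ENNReal.ofReal_mul (by positivity)]
  have hF1 : ENNReal.ofReal ((M * (c1 * τ / 2)) ^ 2 / W) ≤ volume F := by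
    have h1 : ENNReal.ofReal ((M * (c1 * τ / 2)) ^ 2) ≤ volume F * ENNReal.ofReal W := by
      rw [ENNReal.ofReal_pow (by positivity)]
      calc ENNReal.ofReal (M * (c1 * τ / 2)) ^ 2
          ≤ (∫⁻ i in T1, volume (F ∩ {x | (i, x) ∈ G})) ^ 2 := by gcongr
        _ ≤ _ := hcs
        _ ≤ _ := by gcongr
    rw [ENNReal.ofReal_div_of_pos hW0]
    exact ENNReal.div_le_of_le_mul h1
  have hri := real_ineq (p := p) (m := m) (k := k) (J := (J : ℝ)) hm' hκ0 hc' hc10 hc30 hlam hlamR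
    hτ hd0 hl1 hl'1 hK21 hll hV00 hr0 (Nat.cast_nonneg J) hJ2
  have hF2 : volume F ≤ ENNReal.ofReal (C2 * κ ^ (m + k + 1)) * volume (thickening δ E) := by
    have h1 := hlip2 _ _ (thickening δ E) (pull_lip hκ hU' (thickening δ E))
    refine (measure_mono (thick_lip hκ hU E)).trans (h1.trans ?_)
    rw [Real.coe_toNNReal _ hκ0.le]
    simp
  have hCK : 0 < C2 * κ ^ (m + k + 1) := by positivity
  have hfin : X / Y * (lam * τ / l) ^ (2 * p + 2) ≤
      (C2 * κ ^ (m + k + 1))⁻¹ * ((M * (c1 * τ / 2)) ^ 2 / W) := by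
    have h1 : X / Y * (lam * τ / l) ^ (2 * p + 2) = Y⁻¹ * (X * (lam * τ / l) ^ (2 * p + 2)) := by
      ring
    rw [h1]
    calc Y⁻¹ * (X * (lam * τ / l) ^ (2 * p + 2))
        ≤ Y⁻¹ * ((2 * R) ^ 2 * ((M * (c1 * τ / 2)) ^ 2 / W)) := by
          gcongr
      _ = _ := by
          rw [hY, mul_inv]
          have : (2 * R) ^ 2 ≠ 0 := by positivity
          field_simp
  calc ENNReal.ofReal (X / Y * (lam * τ / l) ^ (2 * p + 2))
      ≤ ENNReal.ofReal ((C2 * κ ^ (m + k + 1))⁻¹ * ((M * (c1 * τ / 2)) ^ 2 / W)) :=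
        ENNReal.ofReal_le_ofReal hfin
    _ = (ENNReal.ofReal (C2 * κ ^ (m + k + 1)))⁻¹ *
          ENNReal.ofReal ((M * (c1 * τ / 2)) ^ 2 / W) := by
        rw [ENNReal.ofReal_mul (by positivity), ENNReal.ofReal_inv_of_pos hCK]
    _ ≤ (ENNReal.ofReal (C2 * κ ^ (m + k + 1)))⁻¹ *
          (ENNReal.ofReal (C2 * κ ^ (m + k + 1)) * volume (thickening δ E)) := by
        gcongr
        exact hF1.trans hF2
    _ = volume (thickening δ E) := by
        rw [← mul_assoc, ENNReal.inv_mul_cancel (by simpa using hCK) ENNReal.ofReal_ne_top,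
          one_mul]

end Run7.h693.TP
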