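import Pool.Agent.Run7.h693.TP.Trans

set_option autoImplicit false

/-!
# Transversal pencils: the estimate and its proof for one pencil
-/

open MeasureTheory Set Metric ENNReal NNReal

namespace Run7.h693.TP

/-- the heights at which the line number `v` is in `E` -/
def hts {N : ℕ} (a : P N → P N) (E : Set (P N × ℝ)) (v : P N) : Set ℝ :=
  {t | (a v + t • v, t) ∈ E}

/-- The estimate. -/
def Good (R : ℝ) (N : ℕ) (D : Set (P N)) (a : P N → P N) (c : ℝ) (p : ℕ) : Prop :=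
  ∀ (δ lam τ : ℝ) (E : Set (P N × ℝ)) (T : Set (P N)), 0 < δ → δ ≤ 1 → 0 ≤ lam → 0 ≤ τ →
    MeasurableSet E → E ⊆ closedBall 0 R → MeasurableSet T → T ⊆ D → T ⊆ closedBall 0 R →
    (∀ v ∈ T, ENNReal.ofReal lam ≤ volume (hts a E v)) → ENNReal.ofReal τ ≤ volume T →
    ENNReal.ofReal (c * (lam * τ / (1 + Real.log (1 / δ))) ^ p) ≤ volume (thickening δ E)

/-! ### The linear maps `A b` -/

section lin

variable {κ : ℝ} {m k : ℕ} {A : P m → (P k × ℝ) →L[ℝ] P m}

theorem A_bound (hκ : 0 ≤ κ) (hA0 : ∀ q, ‖A 0 q‖ ≤ κ * ‖q‖)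
    (hA : ∀ b b' q, ‖A b q - A b' q‖ ≤ κ * ‖b - b'‖ * ‖q‖) {b : P m} (hb : ‖b‖ ≤ κ)
    (q : P k × ℝ) : ‖A b q‖ ≤ (κ + κ ^ 2) * ‖q‖ := by
  have h1 : ‖A b q‖ ≤ ‖A b q - A 0 q‖ + ‖A 0 q‖ := by
    calc ‖A b q‖ = ‖(A b q - A 0 q) + A 0 q‖ := by rw [sub_add_cancel]
      _ ≤ _ := norm_add_le _ _
  have h2 := hA b 0 q
  rw [sub_zero] at h2
  have h3 := hA0 q
  have h4 : κ * ‖b‖ * ‖q‖ ≤ κ * κ * ‖q‖ := by gcongr
  nlinarith

theorem A_cont (hκ : 0 ≤ κ) (hA : ∀ b b' q, ‖A b q - A b' q‖ ≤ κ * ‖b - b'‖ * ‖q‖) :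
    Continuous A := by
  have : LipschitzWith κ.toNNReal A := by
    apply LipschitzWith.of_dist_le_mul
    intro b b'
    rw [dist_eq_norm, dist_eq_norm, Real.coe_toNNReal _ hκ]
    apply ContinuousLinearMap.opNorm_le_bound _ (by positivity)
    intro q
    exact hA b b' q
  exact this.continuous

end lin

/-! ### The slabs -/

section slab

variable {κ : ℝ} {m k : ℕ} (A : P m → (P k × ℝ) →L[ℝ] P m)

/-- The slab around the member number `b` (translated by `g`) of the pencil. -/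
def slab (R' d : ℝ) (b g : P m) : Set (P m × (P k × ℝ)) :=
  {x | x.2 ∈ closedBall 0 R' ∧ ‖x.1 - (A b x.2 + g)‖ ≤ d}

variable {A}

theorem slab_vol {R' d : ℝ} (hd : 0 ≤ d) (b g : P m) :
    volume (slab A R' d b g) =
      ENNReal.ofReal ((2 * d) ^ m) * volume (closedBall (0 : P k × ℝ) R') := by
  have h : Measurable fun q => A b q + g := by
    have : Continuous fun q => A b q + g := by fun_prop
    exact this.measurable
  exact fub (fun q => A b q + g) h _ measurableSet_closedBall hd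

theorem slab_inter (hm : 0 < m) (hκ : 0 < κ)
    (hT : ∀ b b', ‖b‖ ≤ κ → ‖b'‖ ≤ κ →
        ∀ ξ, ∃ q, A b q - A b' q = ‖b - b'‖ • ξ ∧ ‖q‖ ≤ κ * ‖ξ‖)
    {R' d : ℝ} (hd : 0 < d) {b b' : P m} (hb : ‖b‖ ≤ κ) (hb' : ‖b'‖ ≤ κ) (g g' : P m)
    {J : ℕ} (hJ : κ ≤ 2 ^ J * (d * m * κ)) :
    volume (slab A R' d b g ∩ slab A R' d b' g') ≤
      ENNReal.ofReal ((2 * d) ^ m) * volume (closedBall (0 : P k × ℝ) (R' + 1)) *
        ker (2 * d * m * κ) J b b' := by
  have hm' : (0 : ℝ) < m := by exact_mod_cast hm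
  set V := volume (closedBall (0 : P k × ℝ) (R' + 1)) with hV
  have hbb : ‖b - b'‖ ≤ 2 ^ J * (2 * d * m * κ) := by
    calc ‖b - b'‖ ≤ ‖b‖ + ‖b'‖ := norm_sub_le _ _
      _ ≤ 2 * κ := by linarith
      _ ≤ 2 * (2 ^ J * (d * m * κ)) := by linarith
      _ = _ := by ring
  classical
  set x : ℝ≥0∞ := if b = b' then 1 else
    min 1 (ENNReal.ofReal ((2 * d * m * κ / ‖b - b'‖) ^ m)) with hx
  have hx1 : x ≤ 1 := by
    rw [hx]; split_ifs
    · exact le_refl _
    · exact min_le_left _ _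
  have hx2 : b ≠ b' → x ≤ ENNReal.ofReal ((2 * d * m * κ / ‖b - b'‖) ^ m) := by
    intro h
    rw [hx, if_neg h]
    exact min_le_right _ _
  have hxk : x ≤ ker (2 * d * m * κ) J b b' := ker_ge (by positivity) hbb hx1 hx2
  have htriv : volume (slab A R' d b g ∩ slab A R' d b' g') ≤
      ENNReal.ofReal ((2 * d) ^ m) * V := by
    refine (measure_mono inter_subset_left).trans ?_
    rw [slab_vol hd.le]
    have hsub : closedBall (0 : P k × ℝ) R' ⊆ closedBall (0 : P k × ℝ) (R' + 1) :=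
      closedBall_subset_closedBall (by linarith)
    exact mul_le_mul' le_rfl (measure_mono hsub)
  have key : volume (slab A R' d b g ∩ slab A R' d b' g') ≤
      ENNReal.ofReal ((2 * d) ^ m) * V * x := by
    rw [hx]
    split_ifs with hbb'
    · rw [mul_one]; exact htriv
    · have hβ : 0 < ‖b - b'‖ := norm_pos_iff.2 (sub_ne_zero.2 hbb')
      have h1 := trans_vol hm hκ hβ (A b - A b') (fun ξ => by
        obtain ⟨q, h1, h2⟩ := hT b b' hb hb' ξ
        exact ⟨q, h1, h2⟩) (g - g') (d := 2 * d) (R := R') (by positivity)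
      rw [← hV] at h1
      set Z : Set (P k × ℝ) := {q | ‖q‖ ≤ R' ∧ ‖(A b - A b') q + (g - g')‖ ≤ 2 * d} with hZ
      have hZm : MeasurableSet Z := by
        apply IsClosed.measurableSet
        have c1 : Continuous fun q : P k × ℝ => ‖(A b - A b') q + (g - g')‖ := by fun_prop
        exact (isClosed_le continuous_norm continuous_const).inter
          (isClosed_le c1 continuous_const)
      have h2 : slab A R' d b g ∩ slab A R' d b' g' ⊆
          {x | x.2 ∈ Z ∧ ‖x.1 - (A b x.2 + g)‖ ≤ d} := by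
        rintro ⟨ζ, q⟩ ⟨⟨h3, h4⟩, ⟨-, h5⟩⟩
        refine ⟨⟨by simpa using h3, ?_⟩, h4⟩
        change ‖(A b q - A b' q) + (g - g')‖ ≤ 2 * d
        change ‖ζ - (A b q + g)‖ ≤ d at h4
        change ‖ζ - (A b' q + g')‖ ≤ d at h5
        calc ‖(A b q - A b' q) + (g - g')‖
            = ‖(ζ - (A b' q + g')) - (ζ - (A b q + g))‖ := by congr 1; abel
          _ ≤ ‖ζ - (A b' q + g')‖ + ‖ζ - (A b q + g)‖ := norm_sub_le _ _
          _ ≤ 2 * d := by linarith
      have hmeas : Measurable fun q => A b q + g := by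
        have : Continuous fun q => A b q + g := by fun_prop
        exact this.measurable
      have h3 := fub (fun q => A b q + g) hmeas Z hZm hd.le
      have h4 : volume (slab A R' d b g ∩ slab A R' d b' g') ≤
          ENNReal.ofReal ((2 * d) ^ m) * (ENNReal.ofReal ((2 * d * m * κ / ‖b - b'‖) ^ m) * V) := by
        refine (measure_mono h2).trans ?_
        rw [h3]
        gcongr
      rcases min_cases 1 (ENNReal.ofReal ((2 * d * m * κ / ‖b - b'‖) ^ m)) with ⟨h5, -⟩ | ⟨h5, -⟩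
      · rw [h5, mul_one]; exact htriv
      · rw [h5, mul_assoc, mul_comm V]; exact h4
  refine key.trans ?_
  gcongr

end slab

end Run7.h693.TP
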