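import Pool.Agent.Run7.h693.TP.Main

set_option autoImplicit false

/-!
# Transversal pencils: the estimate for towers
-/

open MeasureTheory Set Metric ENNReal NNReal

namespace Run7.h693.TP

theorem Good.mono {R : ℝ} {N : ℕ} {D : Set (P N)} {a : P N → P N} {c c₂ : ℝ} {p : ℕ}
    (h : Good R N D a c₂ p) (hc : c ≤ c₂) : Good R N D a c p := by
  intro δ lam τ E T hδ hδ1 hlam hτ hE hER hTm hTD hTR hht hτT
  refine le_trans (ENNReal.ofReal_le_ofReal ?_) (h δ lam τ E T hδ hδ1 hlam hτ hE hER hTm hTD hTR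
    hht hτT)
  have hl : 1 ≤ 1 + Real.log (1 / δ) := one_le_l hδ hδ1
  gcongr

theorem base (R : ℝ) (hR : 1 ≤ R) (p : ℕ) (hp : 1 ≤ p) (D : Set (P 0)) (a : P 0 → P 0) :
    Good R 0 D a ((2 * R) ^ (p - 1))⁻¹ p := by
  intro δ lam τ E T hδ hδ1 hlam hτ hE hER hTm hTD hTR hht hτT
  have hR0 : 0 < R := by linarith
  rcases eq_or_lt_of_le hτ with hτ0 | hτ0
  · rw [← hτ0, mul_zero, zero_div, zero_pow (by omega), mul_zero, ENNReal.ofReal_zero]
    exact zero_le
  have hTne : T.Nonempty := by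
    by_contra h
    rw [not_nonempty_iff_eq_empty] at h
    rw [h, measure_empty] at hτT
    have := ENNReal.ofReal_pos.2 hτ0
    exact absurd hτT (not_le.2 this)
  obtain ⟨v, hv⟩ := hTne
  have hlamR : lam ≤ 2 * R := by
    have h1 := hht v hv
    have h2 : hts a E v ⊆ Icc (-R) R := by
      intro t ht
      have h3 := hER ht
      rw [mem_closedBall_zero_iff, Prod.norm_def] at h3
      have h4 : |t| ≤ R := (le_max_right ‖a v + t • v‖ ‖t‖).trans h3
      exact abs_le.1 h4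
    have h3 := h1.trans (measure_mono h2)
    rw [Real.volume_Icc, ENNReal.ofReal_le_ofReal_iff (by linarith)] at h3
    linarith
  have hτ1 : τ ≤ 1 := by
    have h1 : volume T ≤ 1 := by
      refine (measure_mono hTR).trans ?_
      rw [Real.volume_pi_closedBall _ hR0.le]
      simp
    have h2 := hτT.trans h1
    rw [← ENNReal.ofReal_one, ENNReal.ofReal_le_ofReal_iff (by norm_num)] at h2
    exact h2
  have hvE : volume E = volume {t : ℝ | ((0 : P 0), t) ∈ E} := by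
    have hG : MeasurableSet {t : ℝ | ((0 : P 0), t) ∈ E} := by
      have : Measurable fun t : ℝ => ((0 : P 0), t) := by fun_prop
      exact this hE
    have h1 := fub (m := 0) (fun _ : ℝ => (0 : P 0)) measurable_const
      {t : ℝ | ((0 : P 0), t) ∈ E} hG (le_refl 0)
    have h2 : {x : P 0 × ℝ | x.2 ∈ {t : ℝ | ((0 : P 0), t) ∈ E} ∧ ‖x.1 - (fun _ => 0) x.2‖ ≤ 0} =
        E := by
      ext ⟨x, t⟩
      have hx : x = 0 := Subsingleton.elim _ _
      subst hx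
      simp
    rw [h2] at h1
    rw [h1]
    simp
  have h1 : ENNReal.ofReal lam ≤ volume E := by
    refine (hht v hv).trans ?_
    rw [hvE]
    apply measure_mono
    intro t ht
    have h2 : (a v + t • v, t) ∈ E := ht
    have h3 : a v + t • v = 0 := Subsingleton.elim _ _
    rw [h3] at h2
    exact h2
  have hl : 1 ≤ 1 + Real.log (1 / δ) := one_le_l hδ hδ1
  refine le_trans ?_ (h1.trans (measure_mono (self_subset_thickening hδ E)))
  apply ENNReal.ofReal_le_ofReal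
  have h2 : lam * τ / (1 + Real.log (1 / δ)) ≤ lam := by
    rw [div_le_iff₀ (by linarith)]
    nlinarith
  have h3 : (lam * τ / (1 + Real.log (1 / δ))) ^ p ≤ lam ^ p := by gcongr
  have h4 : lam ^ p ≤ (2 * R) ^ (p - 1) * lam := by
    obtain ⟨q, rfl⟩ : ∃ q, p = q + 1 := ⟨p - 1, by omega⟩
    rw [pow_succ, Nat.add_sub_cancel]
    gcongr
  rw [inv_mul_le_iff₀ (by positivity)]
  exact h3.trans h4

/-- finitely many positive constants -/
theorem exists_lb (f : ℕ → ℕ → ℝ) (hf : ∀ m k, 0 < f m k) (n : ℕ) :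
    ∃ c : ℝ, 0 < c ∧ ∀ m ≤ n, ∀ k ≤ n, c ≤ f m k := by
  obtain ⟨x, -, hx⟩ := Finset.exists_min_image (Finset.range (n + 1) ×ˢ Finset.range (n + 1))
    (fun x => f x.1 x.2) ⟨(0, 0), by simp⟩
  refine ⟨f x.1 x.2, hf _ _, fun m hm k hk => hx (m, k) ?_⟩
  simp only [Finset.mem_product, Finset.mem_range]
  omega

theorem tower_good (κ : ℝ) (hκ : 1 ≤ κ) (n : ℕ) : ∀ R : ℝ, 1 ≤ R → ∃ (c : ℝ) (p : ℕ), 0 < c ∧
    1 ≤ p ∧ ∀ N ≤ n, ∀ (D : Set (P N)) (a : P N → P N), Tower κ N D a → Good R N D a c p := by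
  induction n with
  | zero =>
    intro R hR
    refine ⟨((2 * R) ^ (1 - 1))⁻¹, 1, by simp, le_refl _, ?_⟩
    intro N hN D a h
    cases h with
    | point => exact base R hR 1 le_rfl _ _
    | @pencil _ m k M _ _ hm hM ha V hcov γ hγ D' a' hlin hF =>
      obtain ⟨U, A, ⟨hU, hU'⟩, ⟨hA0, hA⟩, hT⟩ := V
      exfalso
      have := LinearEquiv.finrank_eq U.toLinearEquiv
      simp at this
      omega
  | succ n ih =>
    intro R hR
    obtain ⟨c', p, hc', hp, hih⟩ := ih (κ * R) (by nlinarith)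
    have hstep : ∀ m k : ℕ, ∃ c : ℝ, 0 < c ∧ (0 < m → ∀ (N : ℕ) (D : Set (P N)) (a : P N → P N), Measurable a →
    ∀ (U : (P m × P k) ≃L[ℝ] P N), (∀ p, ‖U p‖ ≤ κ * ‖p‖) → (∀ p, ‖p‖ ≤ κ * ‖U p‖) →
    ∀ (A : P m → (P k × ℝ) →L[ℝ] P m), (∀ q, ‖A 0 q‖ ≤ κ * ‖q‖) →
    (∀ b b' q, ‖A b q - A b' q‖ ≤ κ * ‖b - b'‖ * ‖q‖) →
    (∀ b b', ‖b‖ ≤ κ → ‖b'‖ ≤ κ → ∀ ξ, ∃ q, A b q - A b' q = ‖b - b'‖ • ξ ∧ ‖q‖ ≤ κ * ‖ξ‖) →
    (∀ v ∈ D, ∃ b w, ‖b‖ ≤ κ ∧ v = U (A b (w, 1), w)) →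
    ∀ (M : ℕ), (M : ℝ) ≤ κ → ∀ (γ : P m → Fin M → P m), (∀ b, Function.Injective (γ b)) →
    ∀ (D' : P m → Fin M → Set (P k)) (a' : P m → Fin M → P k → P k),
    (∀ b w, ‖b‖ ≤ κ → U (A b (w, 1), w) ∈ D → ∃ j, w ∈ D' b j ∧
        a (U (A b (w, 1), w)) = U (A b (a' b j w, 0) + γ b j, a' b j w)) →
    (∀ b j, ‖b‖ ≤ κ → Good (κ * R) k (D' b j) (a' b j) c' p) → Good R N D a c (2 * p + 2)) := by
      intro m k
      by_cases hm : 0 < m
      · obtain ⟨c, hc, h⟩ := step m k hm κ R hκ hR c' hc' p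
        exact ⟨c, hc, fun _ => h⟩
      · exact ⟨1, one_pos, fun h => absurd h hm⟩
    choose f hf hf2 using hstep
    obtain ⟨c, hc, hcf⟩ := exists_lb f hf (n + 1)
    refine ⟨min c (((2 * R) ^ (2 * p + 2 - 1))⁻¹), 2 * p + 2, lt_min hc (by positivity), by omega,
      ?_⟩
    intro N hN D a h
    cases h with
    | point =>
      exact (base R hR (2 * p + 2) (by omega) _ _).mono (min_le_right _ _)
    | @pencil _ m k M _ _ hm hM ha V hcov γ hγ D' a' hlin hF =>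
      obtain ⟨U, A, ⟨hU, hU'⟩, ⟨hA0, hA⟩, hT⟩ := V
      have hmk : m + k = N := by
        have := LinearEquiv.finrank_eq U.toLinearEquiv
        simpa using this
      have h1 := hf2 m k hm N D a ha U hU hU' A hA0 hA hT hcov M hM γ hγ D' a' hlin
        (fun b j hb => hih k (by omega) (D' b j) (a' b j) (hF b j hb))
      exact h1.mono ((min_le_left _ _).trans (hcf m (by omega) k (by omega)))

end Run7.h693.TP
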