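import Pool.Agent.Run7.h693.TP.Basic

set_option autoImplicit false

/-!
# Transversal pencils: the volume of the intersection of two members
-/

open MeasureTheory Set Metric ENNReal NNReal

namespace Run7.h693.TP

/-- A linear map onto `ℝ^m` with a bounded right inverse is rarely close to a given value. -/
theorem trans_vol {m : ℕ} (hm : 0 < m) {Q : Type} [NormedAddCommGroup Q] [NormedSpace ℝ Q]
    [FiniteDimensional ℝ Q] [MeasureSpace Q] [BorelSpace Q]
    [(volume : Measure Q).IsAddHaarMeasure] {κ β : ℝ} (hκ : 0 < κ) (hβ : 0 < β)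
    (L : Q →L[ℝ] P m) (hL : ∀ ξ : P m, ∃ q, L q = β • ξ ∧ ‖q‖ ≤ κ * ‖ξ‖) (g : P m) {d R : ℝ}
    (hd : 0 ≤ d) :
    volume {q : Q | ‖q‖ ≤ R ∧ ‖L q + g‖ ≤ d} ≤
      ENNReal.ofReal ((d * m * κ / β) ^ m) * volume (closedBall (0 : Q) (R + 1)) := by
  classical
  have hm' : (0 : ℝ) < m := by exact_mod_cast hm
  choose q hq1 hq2 using fun i : Fin m => hL (Pi.single i 1)
  set S : P m →L[ℝ] Q := ∑ i, (ContinuousLinearMap.proj (R := ℝ) (φ := fun _ : Fin m => ℝ) i).smulRight (q i)
    with hS
  have hSa : ∀ ξ, S ξ = ∑ i, ξ i • q i := by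
    intro ξ
    rw [hS, _root_.sum_apply]
    rfl
  have hLS : ∀ ξ, L (S ξ) = β • ξ := by
    intro ξ
    rw [hSa, map_sum]
    have : ∀ i, L (ξ i • q i) = β • (ξ i • (Pi.single i 1 : P m)) := by
      intro i
      rw [map_smul, hq1, smul_comm]
    simp_rw [this]
    rw [← Finset.smul_sum]
    congr 1
    ext j
    simp [Finset.sum_apply, Pi.single_apply]
  have hSn : ∀ ξ, ‖S ξ‖ ≤ m * κ * ‖ξ‖ := by
    intro ξ
    rw [hSa]
    calc ‖∑ i, ξ i • q i‖ ≤ ∑ i, ‖ξ i • q i‖ := norm_sum_le _ _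
      _ ≤ ∑ _i : Fin m, ‖ξ‖ * κ := by
        apply Finset.sum_le_sum
        intro i _
        rw [norm_smul]
        have h1 : ‖q i‖ ≤ κ := by
          refine (hq2 i).trans ?_
          rw [Pi.norm_single]
          simp
        gcongr
        exact norm_le_pi_norm ξ i
      _ = m * κ * ‖ξ‖ := by
        rw [Finset.sum_const, Finset.card_univ, Fintype.card_fin, nsmul_eq_mul]; ring
  set Z : Set Q := {q : Q | ‖q‖ ≤ R ∧ ‖L q + g‖ ≤ d} with hZ
  have hZm : MeasurableSet Z := by
    apply IsClosed.measurableSet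
    have c1 : Continuous fun q : Q => ‖L q + g‖ := by fun_prop
    exact (isClosed_le continuous_norm continuous_const).inter
      (isClosed_le c1 continuous_const)
  set ρ : ℝ := 1 / (m * κ) with hρ
  have hρ0 : 0 < ρ := by positivity
  set G : Set (P m × Q) := {x | ‖x.1‖ ≤ ρ ∧ x.2 - S x.1 ∈ Z} with hG
  have hGm : MeasurableSet G := by
    apply MeasurableSet.inter
    · have c1 : Measurable fun x : P m × Q => ‖x.1‖ := by fun_prop
      exact measurableSet_le c1 measurable_const
    · have : Measurable (fun x : P m × Q => x.2 - S x.1) := by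
        have : Continuous (fun x : P m × Q => x.2 - S x.1) := by fun_prop
        exact this.measurable
      exact this hZm
  have h1 : (volume : Measure (P m)).prod (volume : Measure Q) G =
      ENNReal.ofReal ((2 * ρ) ^ m) * volume Z := by
    rw [Measure.prod_apply hGm]
    have e1 : ∀ ξ : P m, volume (Prod.mk ξ ⁻¹' G) =
        (closedBall (0 : P m) ρ).indicator (fun _ => volume Z) ξ := by
      intro ξ
      by_cases hξ : ‖ξ‖ ≤ ρ
      · rw [indicator_of_mem (by simpa using hξ)]
        have : Prod.mk ξ ⁻¹' G = (fun q => q + (-S ξ)) ⁻¹' Z := by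
          ext q; simp [hG, hξ, sub_eq_add_neg]
        rw [this, measure_preimage_add_right]
      · rw [indicator_of_notMem (by simpa using hξ)]
        have : Prod.mk ξ ⁻¹' G = ∅ := by
          ext q
          simp only [mem_preimage, mem_empty_iff_false, iff_false]
          exact fun h => hξ h.1
        rw [this, measure_empty]
    simp_rw [e1]
    rw [lintegral_indicator measurableSet_closedBall, setLIntegral_const,
      Real.volume_pi_closedBall _ hρ0.le, Fintype.card_fin, mul_comm]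
  have h2 : (volume : Measure (P m)).prod (volume : Measure Q) G ≤
      ENNReal.ofReal ((2 * (d / β)) ^ m) * volume (closedBall (0 : Q) (R + 1)) := by
    rw [Measure.prod_apply_symm hGm]
    have e1 : ∀ q : Q, volume ((fun ξ : P m => (ξ, q)) ⁻¹' G) ≤
        (closedBall (0 : Q) (R + 1)).indicator (fun _ => ENNReal.ofReal ((2 * (d / β)) ^ m)) q := by
      intro q
      by_cases hq : ‖q‖ ≤ R + 1
      · rw [indicator_of_mem (by simpa using hq)]
        have : (fun ξ : P m => (ξ, q)) ⁻¹' G ⊆ closedBall (β⁻¹ • (L q + g)) (d / β) := by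
          intro ξ hξ
          have h3 : ‖L (q - S ξ) + g‖ ≤ d := hξ.2.2
          rw [map_sub, hLS] at h3
          rw [mem_closedBall, dist_eq_norm, ← norm_neg]
          have h4 : -(ξ - β⁻¹ • (L q + g)) = β⁻¹ • (L q - β • ξ + g) := by
            rw [smul_add, smul_add, smul_sub, smul_smul β⁻¹ β, inv_mul_cancel₀ hβ.ne', one_smul]
            abel
          rw [h4, norm_smul, norm_inv, Real.norm_of_nonneg hβ.le, div_eq_inv_mul]
          gcongr
        refine (measure_mono this).trans ?_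
        rw [Real.volume_pi_closedBall _ (by positivity), Fintype.card_fin]
      · rw [indicator_of_notMem (by simpa using hq)]
        have : (fun ξ : P m => (ξ, q)) ⁻¹' G = ∅ := by
          ext ξ
          simp only [mem_preimage, mem_empty_iff_false, iff_false]
          intro hξ
          apply hq
          have h3 : ‖q - S ξ‖ ≤ R := hξ.2.1
          have h4 : ‖S ξ‖ ≤ 1 := by
            refine (hSn ξ).trans ?_
            have h5 : ‖ξ‖ ≤ ρ := hξ.1
            calc m * κ * ‖ξ‖ ≤ m * κ * ρ := by gcongr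
              _ = 1 := by rw [hρ]; field_simp
          calc ‖q‖ = ‖(q - S ξ) + S ξ‖ := by rw [sub_add_cancel]
            _ ≤ ‖q - S ξ‖ + ‖S ξ‖ := norm_add_le _ _
            _ ≤ R + 1 := by linarith
        rw [this, measure_empty]
    calc ∫⁻ q : Q, volume ((fun ξ : P m => (ξ, q)) ⁻¹' G)
        ≤ ∫⁻ q : Q, (closedBall (0 : Q) (R + 1)).indicator
            (fun _ => ENNReal.ofReal ((2 * (d / β)) ^ m)) q := lintegral_mono e1
      _ = _ := by
        rw [lintegral_indicator measurableSet_closedBall, setLIntegral_const]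
  rw [h1] at h2
  have h3 : (0 : ℝ) < (2 * ρ) ^ m := by positivity
  have h4 : (d * m * κ / β) ^ m = ((2 * ρ) ^ m)⁻¹ * (2 * (d / β)) ^ m := by
    rw [← inv_pow, ← mul_pow]
    congr 1
    rw [hρ]
    field_simp
  rw [h4, ENNReal.ofReal_mul (by positivity), ENNReal.ofReal_inv_of_pos h3, mul_assoc]
  calc volume Z = (ENNReal.ofReal ((2 * ρ) ^ m))⁻¹ * (ENNReal.ofReal ((2 * ρ) ^ m) * volume Z) := by
        rw [← mul_assoc, ENNReal.inv_mul_cancel (by simpa using h3) ENNReal.ofReal_ne_top, one_mul]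
    _ ≤ _ := by gcongr

/-- The volume of the neighbourhood of a graph. -/
theorem fub {m : ℕ} {Q : Type} [MeasureSpace Q] [SFinite (volume : Measure Q)] (h : Q → P m)
    (hh : Measurable h) (G : Set Q) (hG : MeasurableSet G) {d : ℝ} (hd : 0 ≤ d) :
    volume {x : P m × Q | x.2 ∈ G ∧ ‖x.1 - h x.2‖ ≤ d} =
      ENNReal.ofReal ((2 * d) ^ m) * volume G := by
  have hm : MeasurableSet {x : P m × Q | x.2 ∈ G ∧ ‖x.1 - h x.2‖ ≤ d} := by
    apply MeasurableSet.inter
    · exact measurable_snd hG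
    · exact measurableSet_le ((measurable_fst.sub (hh.comp measurable_snd)).norm) measurable_const
  rw [Measure.volume_eq_prod, Measure.prod_apply_symm hm]
  have e1 : ∀ q : Q, volume ((fun ξ : P m => (ξ, q)) ⁻¹' {x : P m × Q | x.2 ∈ G ∧
      ‖x.1 - h x.2‖ ≤ d}) = G.indicator (fun _ => ENNReal.ofReal ((2 * d) ^ m)) q := by
    intro q
    by_cases hq : q ∈ G
    · rw [indicator_of_mem hq]
      have : (fun ξ : P m => (ξ, q)) ⁻¹' {x : P m × Q | x.2 ∈ G ∧ ‖x.1 - h x.2‖ ≤ d} =
          closedBall (h q) d := by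
        ext ξ
        simp [hq, dist_eq_norm]
      rw [this, Real.volume_pi_closedBall _ hd, Fintype.card_fin]
    · rw [indicator_of_notMem hq]
      have : (fun ξ : P m => (ξ, q)) ⁻¹' {x : P m × Q | x.2 ∈ G ∧ ‖x.1 - h x.2‖ ≤ d} = ∅ := by
        ext ξ
        simp [hq]
      rw [this, measure_empty]
  simp_rw [e1]
  rw [lintegral_indicator hG, setLIntegral_const]

/-- The dyadic majorant of `min 1 ((s / ‖b - b'‖) ^ m)`. -/
noncomputable def ker {m : ℕ} (s : ℝ) (J : ℕ) (b b' : P m) : ℝ≥0∞ :=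
  ∑ j ∈ Finset.range (J + 1), ENNReal.ofReal (2 ^ m * ((2 ^ j) ^ m)⁻¹) *
    (closedBall b (2 ^ j * s)).indicator (fun _ => 1) b'

theorem ker_int {m : ℕ} {s : ℝ} (hs : 0 < s) (J : ℕ) (b : P m) :
    ∫⁻ b', ker s J b b' = ENNReal.ofReal ((J + 1) * (4 * s) ^ m) := by
  unfold ker
  rw [lintegral_finsetSum]
  · have e1 : ∀ j : ℕ, ∫⁻ b' : P m, ENNReal.ofReal (2 ^ m * ((2 ^ j) ^ m)⁻¹) *
        (closedBall b (2 ^ j * s)).indicator (fun _ => 1) b' = ENNReal.ofReal ((4 * s) ^ m) := by
      intro j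
      rw [lintegral_const_mul _ (measurable_const.indicator measurableSet_closedBall),
        lintegral_indicator measurableSet_closedBall, setLIntegral_const, one_mul,
        Real.volume_pi_closedBall _ (by positivity), Fintype.card_fin,
        ← ENNReal.ofReal_mul (by positivity)]
      congr 1
      have : ((2 : ℝ) ^ j) ^ m ≠ 0 := by positivity
      rw [mul_pow, mul_pow, mul_pow, show (4 : ℝ) = 2 * 2 by norm_num, mul_pow]
      field_simp
    simp_rw [e1]
    rw [Finset.sum_const, Finset.card_range, nsmul_eq_mul, ENNReal.ofReal_mul (by positivity)]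
    congr 1
    rw [show ((J : ℝ) + 1) = ((J + 1 : ℕ) : ℝ) by push_cast; ring, ENNReal.ofReal_natCast]
  · intro j _
    exact (measurable_const.indicator measurableSet_closedBall).const_mul _

theorem measurable_ker {m : ℕ} (s : ℝ) (J : ℕ) (b : P m) : Measurable (ker s J b) := by
  unfold ker
  apply Finset.measurable_fun_sum
  intro j _
  exact (measurable_const.indicator measurableSet_closedBall).const_mul _

/-- `min 1 ((s / ‖b - b'‖) ^ m) ≤ ker`. -/
theorem ker_ge {m : ℕ} {s : ℝ} (hs : 0 < s) {J : ℕ} {b b' : P m} (hJ : ‖b - b'‖ ≤ 2 ^ J * s)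
    {x : ℝ≥0∞} (h1 : x ≤ 1) (h2 : b ≠ b' → x ≤ ENNReal.ofReal ((s / ‖b - b'‖) ^ m)) :
    x ≤ ker s J b b' := by
  -- the smallest `j` with `‖b - b'‖ ≤ 2 ^ j s`
  classical
  have hex : ∃ j : ℕ, ‖b - b'‖ ≤ 2 ^ j * s := ⟨J, hJ⟩
  set j := Nat.find hex with hj
  have hj1 : ‖b - b'‖ ≤ 2 ^ j * s := Nat.find_spec hex
  have hjJ : j ≤ J := Nat.find_min' hex hJ
  have hterm : x ≤ ENNReal.ofReal (2 ^ m * ((2 ^ j) ^ m)⁻¹) *
      (closedBall b (2 ^ j * s)).indicator (fun _ => 1) b' := by
    rw [indicator_of_mem (by rw [mem_closedBall, dist_comm, dist_eq_norm]; exact hj1), mul_one]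
    rcases Nat.eq_zero_or_pos j with h0 | h0
    · rw [h0]
      refine h1.trans ?_
      rw [pow_zero, one_pow, inv_one, mul_one, ← ENNReal.ofReal_one]
      exact ENNReal.ofReal_le_ofReal (one_le_pow₀ (by norm_num))
    · have h3 : ¬ ‖b - b'‖ ≤ 2 ^ (j - 1) * s := Nat.find_min hex (by omega)
      rw [not_le] at h3
      have h4 : 0 < ‖b - b'‖ := lt_of_le_of_lt (by positivity) h3
      have hne : b ≠ b' := by
        rintro rfl
        simp at h4
      refine (h2 hne).trans (ENNReal.ofReal_le_ofReal ?_)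
      rw [← inv_pow, ← mul_pow]
      gcongr
      rw [div_le_iff₀ h4]
      have h5 : (2 : ℝ) ^ j = 2 * 2 ^ (j - 1) := by
        rw [← pow_succ']; congr 1; omega
      rw [h5]
      have h6 : (0 : ℝ) < 2 ^ (j - 1) := by positivity
      calc s = (2 * (2 * 2 ^ (j - 1))⁻¹) * (2 ^ (j - 1) * s) := by field_simp
        _ ≤ (2 * (2 * 2 ^ (j - 1))⁻¹) * ‖b - b'‖ := by gcongr
  refine hterm.trans ?_
  unfold ker
  exact Finset.single_le_sum (f := fun j : ℕ => ENNReal.ofReal (2 ^ m * ((2 ^ j) ^ m)⁻¹) *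
    (closedBall b (2 ^ j * s)).indicator (fun _ => (1 : ℝ≥0∞)) b') (fun _ _ => zero_le)
    (Finset.mem_range.2 (by omega))

end Run7.h693.TP
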